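import Pool.Agent.V7H2.AB.Nil

/-!
Decomposition by degrees and algebraicity of inverses.
-/

set_option autoImplicit false

open CategoryTheory CategoryTheory.Limits MonoidalCategory Polynomial

namespace Pool.Agent.V7H2.AB

universe v u

variable {q : ℕ} {K : Type} [Field K] [CharZero K] [IsAlgClosed K]
  {C : Type u} [Category.{v} C] [Abelian C] [Linear ℚ C] [MonoidalCategory C]
  [SymmetricCategory C] [RightRigidCategory C] [MonoidalPreadditive C] [MonoidalLinear ℚ C]

variable (R : Realisation q K C) (hU : UnitQ C)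

omit [IsAlgClosed K] [MonoidalPreadditive C] [MonoidalLinear ℚ C] in
theorem coprime_P (hq : 2 ≤ q) (M : C) {i j : ℤ} (h : i ≠ j) : IsCoprime (R.P M i) (R.P M j) := by
  rw [Polynomial.isCoprime_iff_aeval_ne_zero_of_isAlgClosed ℚ ℂ]
  intro z
  by_contra hc
  push Not at hc
  have h1 := R.weight M i z hc.1
  have h2 := R.weight M j z hc.2
  have hq' : (1 : ℝ) < q := by exact_mod_cast (by omega : 1 < q)
  exact h (zpow_right_injective₀ (by linarith) hq'.ne' (h1.symm.trans h2))

omit [IsAlgClosed K] [MonoidalPreadditive C] [MonoidalLinear ℚ C] in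
theorem aeval_P (M : C) (i : ℤ) :
    aeval (HE R i M (Fr R M)) ((R.P M i).map (algebraMap ℚ K)) = 0 := by
  rw [← charpoly_HE]
  exact LinearMap.aeval_self_charpoly _

open Classical in
include hU in
/-- The decomposition of an object according to the degree of the cohomology. -/
theorem exists_decomp (hq : 2 ≤ q) (M : C) : ∃ e : ℤ → End M,
    (∀ i, e i ∈ Algebra.adjoin ℚ {Fr R M}) ∧ (∀ i, e i * e i = e i) ∧
    (∀ i j, i ≠ j → e i * e j = 0) ∧
    (∃ I : Finset ℤ, (∀ i, i ∉ I → e i = 0) ∧ ∑ i ∈ I, e i = 1) ∧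
    ∀ i j, HE R j M (e i) = if i = j then 1 else 0 := by
  set I : Finset ℤ := insert 0 (degs R M) with hI
  have hIne : I.Nonempty := ⟨0, by simp [hI]⟩
  have hnotI : ∀ j, j ∉ I → Subsingleton ((R.H j).obj M) := fun j hj =>
    subsingleton_of_notMem R (fun h => hj (by simp [hI, h]))
  -- the product of the characteristic polynomials is nilpotent on the Frobenius
  have hnil : IsNilpotent (aeval (Fr R M) (∏ i ∈ I, R.P M i)) := by
    apply nilpotent_of_H R hU hq
    intro j
    by_cases hj : j ∈ I
    · refine ⟨1, ?_⟩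
      rw [pow_one, HE_aeval, Polynomial.map_prod, ← Finset.mul_prod_erase I _ hj, map_mul,
        aeval_P, zero_mul]
    · have := hnotI j hj
      exact ⟨1, Subsingleton.elim _ _⟩
  obtain ⟨N, hN⟩ := hnil
  set Q : ℤ → ℚ[X] := fun i => R.P M i ^ (N + 1) with hQ
  have hQ0 : aeval (Fr R M) (∏ i ∈ I, Q i) = 0 := by
    rw [hQ, Finset.prod_pow, map_pow, pow_succ, hN, zero_mul]
  have hcop : Pairwise (Function.onFun IsCoprime fun i : I => Q i) := by
    intro i j hij
    exact (coprime_P R hq M (fun h => hij (Subtype.ext h))).pow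
  obtain ⟨μ, hμ⟩ := (exists_sum_eq_one_iff_pairwise_coprime hIne).2 hcop
  set r : ℤ → ℚ[X] := fun i => μ i * ∏ j ∈ I \ {i}, Q j with hr
  have hmul0 : ∀ i j, i ∈ I → j ∈ I → i ≠ j → aeval (Fr R M) (r i * r j) = 0 := by
    intro i j hi hj hij
    have h1 : (∏ k ∈ I, Q k) ∣ r i * r j := by
      have h2 : Q i ∣ r j := by
        refine Dvd.dvd.mul_left (Finset.dvd_prod_of_mem _ ?_) _
        simp [hi, hij]
      have h3 : (∏ k ∈ I, Q k) = (∏ k ∈ I \ {i}, Q k) * Q i := by
        rw [Finset.sdiff_singleton_eq_erase, Finset.prod_erase_mul I _ hi]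
      rw [h3]
      exact mul_dvd_mul (Dvd.intro_left _ rfl) h2
    obtain ⟨s, hs⟩ := h1
    rw [hs, map_mul, hQ0, zero_mul]
  set e : ℤ → End M := fun i => if i ∈ I then aeval (Fr R M) (r i) else 0 with he
  have hsum : ∑ i ∈ I, e i = 1 := by
    have h1 : ∀ i ∈ I, e i = aeval (Fr R M) (r i) := fun i hi => by rw [he]; simp [hi]
    rw [Finset.sum_congr rfl h1, ← map_sum, hμ, map_one]
  have horth : ∀ i j, i ≠ j → e i * e j = 0 := by
    intro i j hij
    by_cases hi : i ∈ I
    · by_cases hj : j ∈ I
      · have h1 : e i = aeval (Fr R M) (r i) := by rw [he]; simp [hi]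
        have h2 : e j = aeval (Fr R M) (r j) := by rw [he]; simp [hj]
        rw [h1, h2, ← map_mul, hmul0 i j hi hj hij]
      · have h2 : e j = 0 := by rw [he]; simp [hj]
        rw [h2, mul_zero]
    · have h2 : e i = 0 := by rw [he]; simp [hi]
      rw [h2, zero_mul]
  have hidem : ∀ i, e i * e i = e i := by
    intro i
    by_cases hi : i ∈ I
    · have h1 : e i * ∑ j ∈ I, e j = e i := by rw [hsum, mul_one]
      rw [Finset.mul_sum, Finset.sum_eq_single i] at h1
      · exact h1
      · intro j _ hj
        exact horth i j hj.symm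
      · intro h
        exact absurd hi h
    · have h2 : e i = 0 := by rw [he]; simp [hi]
      rw [h2, zero_mul]
  have hoff : ∀ i j, i ≠ j → HE R j M (e i) = 0 := by
    intro i j hij
    by_cases hj : j ∈ I
    · by_cases hi : i ∈ I
      · have h1 : e i = aeval (Fr R M) (r i) := by rw [he]; simp [hi]
        have h2 : Q j ∣ r i := by
          refine Dvd.dvd.mul_left (Finset.dvd_prod_of_mem _ ?_) _
          simp [hj, hij.symm]
        obtain ⟨s, hs⟩ := h2
        rw [h1, HE_aeval, hs, Polynomial.map_mul, map_mul, hQ, Polynomial.map_pow, map_pow,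
          aeval_P, zero_pow (by omega), zero_mul]
      · have h2 : e i = 0 := by rw [he]; simp [hi]
        rw [h2, map_zero]
    · have := hnotI j hj
      exact Subsingleton.elim _ _
  refine ⟨e, ?_, hidem, horth, ⟨I, ?_, hsum⟩, ?_⟩
  · intro i
    rw [he]
    by_cases hi : i ∈ I
    · simp only [hi, if_true]
      exact Polynomial.aeval_mem_adjoin_singleton ℚ _
    · simp only [hi, if_false]
      exact Subalgebra.zero_mem _
  · intro i hi
    rw [he]
    simp [hi]
  · intro i j
    by_cases hij : i = j
    · subst hij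
      rw [if_pos rfl]
      by_cases hi : i ∈ I
      · have h1 : HE R i M (∑ j ∈ I, e j) = 1 := by rw [hsum, map_one]
        rw [map_sum, Finset.sum_eq_single i] at h1
        · exact h1
        · intro j _ hj
          exact hoff j i hj
        · intro h
          exact absurd hi h
      · have := hnotI i hi
        exact Subsingleton.elim _ _
    · rw [if_neg hij]
      exact hoff i j hij

end Pool.Agent.V7H2.AB
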