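import Mathlib

/-!
# Rigid tensor categories with the formal properties of the Chow motives over a finite field

Definitions used in the statement of the theorem on the consequences of abelianness.
-/

set_option autoImplicit false

open CategoryTheory CategoryTheory.Limits MonoidalCategory Polynomial

namespace Pool.Agent.V7H2.AB

universe v u

/-- The trace of an endomorphism of an object of a rigid symmetric monoidal category: an
endomorphism of the unit object. -/
def tr {C : Type u} [Category.{v} C] [MonoidalCategory C] [BraidedCategory C]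
    [RightRigidCategory C] {X : C} (f : X ⟶ X) : 𝟙_ C ⟶ 𝟙_ C :=
  η_ X Xᘁ ≫ f ▷ Xᘁ ≫ (β_ X Xᘁ).hom ≫ ε_ X Xᘁ

/-- The endomorphisms of the unit object are the rational numbers. -/
def UnitQ (C : Type u) [Category.{v} C] [Preadditive C] [Linear ℚ C] [MonoidalCategory C] : Prop :=
  (∀ f : 𝟙_ C ⟶ 𝟙_ C, ∃ c : ℚ, f = c • 𝟙 (𝟙_ C)) ∧ 𝟙 (𝟙_ C) ≠ 0

/-- The category is abelian: finite products, kernels and cokernels exist, and for every morphism
the canonical morphism from the coimage to the image is an isomorphism. -/
def IsAbelianCat (C : Type u) [Category.{v} C] [Preadditive C] : Prop :=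
  HasFiniteProducts C ∧ ∃ (_ : HasKernels C) (_ : HasCokernels C),
    ∀ {X Y : C} (f : X ⟶ Y), IsIso (Abelian.coimageImageComparison f)

/-- A cohomological realisation with weights over the field with `q` elements of a rigid tensor
category `C`, with coefficients in `K`.

* `frob M` is the Frobenius endomorphism of `M`, it commutes with all morphisms;
* `H i` is the `i`-th cohomology, an additive functor to finite-dimensional vector spaces, zero for
  almost all `i` for every object;
* Künneth formula (for the dimensions);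
* Lefschetz trace formula for all endomorphisms;
* `P M i` is a polynomial with rational coefficients, the characteristic polynomial of the
  Frobenius on `H i M`, all complex roots of which have absolute value `q ^ (i / 2)`. -/
structure Realisation (q : ℕ) (K : Type) [Field K] [CharZero K] (C : Type u) [Category.{v} C]
    [Preadditive C] [Linear ℚ C] [MonoidalCategory C] [BraidedCategory C]
    [RightRigidCategory C] where
  frob : ∀ M : C, M ⟶ M
  frob_comm : ∀ {M N : C} (f : M ⟶ N), f ≫ frob N = frob M ≫ f
  frob_unit : frob (𝟙_ C) = 𝟙 (𝟙_ C)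
  H : ℤ → C ⥤ ModuleCat.{0} K
  additive : ∀ i, (H i).Additive
  finite : ∀ i M, FiniteDimensional K ((H i).obj M)
  bounded : ∀ M, {i : ℤ | Nontrivial ((H i).obj M)}.Finite
  kunneth : ∀ (M N : C) (k : ℤ), Module.finrank K ((H k).obj (M ⊗ N)) =
    ∑ᶠ i : ℤ, Module.finrank K ((H i).obj M) * Module.finrank K ((H (k - i)).obj N)
  lefschetz : ∀ (M : C) (f : M ⟶ M) (c : ℚ), tr f = c • 𝟙 (𝟙_ C) →
    (c : K) = ∑ᶠ i : ℤ, (-1) ^ i * LinearMap.trace K ((H i).obj M) ((H i).map f).hom
  P : C → ℤ → ℚ[X]
  charpoly_eq : ∀ M i, LinearMap.charpoly (M := (H i).obj M) ((H i).map (frob M)).hom =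
    (P M i).map (algebraMap ℚ K)
  weight : ∀ M i (z : ℂ), aeval z (P M i) = 0 → ‖z‖ ^ 2 = (q : ℝ) ^ i

/-- The tensor powers of a morphism from the unit object. -/
def tpow {C : Type u} [Category.{v} C] [MonoidalCategory C] {M : C} (f : 𝟙_ C ⟶ M) :
    ∀ n : ℕ, Σ N : C, (𝟙_ C ⟶ N)
  | 0 => ⟨𝟙_ C, 𝟙 _⟩
  | n + 1 => ⟨M ⊗ (tpow f n).1, (λ_ (𝟙_ C)).inv ≫ (f ⊗ₘ (tpow f n).2)⟩

/-- The numerically trivial morphisms from the unit to `M`. -/
def numTriv (C : Type u) [Category.{v} C] [Preadditive C] [Linear ℚ C] [MonoidalCategory C]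
    (M : C) : Submodule ℚ (𝟙_ C ⟶ M) where
  carrier := {f | ∀ g : M ⟶ 𝟙_ C, f ≫ g = 0}
  zero_mem' := fun g => Limits.zero_comp
  add_mem' := fun {a b} ha hb g => by rw [Preadditive.add_comp, ha g, hb g, add_zero]
  smul_mem' := fun c f hf g => by rw [Linear.smul_comp, hf g, smul_zero]

/-- There are no nonzero numerically trivial morphisms. -/
def NumTrivVanish (C : Type u) [Category.{v} C] [Preadditive C] [MonoidalCategory C]
    [BraidedCategory C] [RightRigidCategory C] : Prop :=
  ∀ (M N : C) (f : M ⟶ N), (∀ g : N ⟶ M, tr (f ≫ g) = 0) → f = 0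

/-- Nonzero morphisms from the unit are monomorphisms and all their tensor powers are nonzero. -/
def NoSmash (C : Type u) [Category.{v} C] [Preadditive C] [MonoidalCategory C] : Prop :=
  ∀ (M : C) (f : 𝟙_ C ⟶ M), f ≠ 0 → Mono f ∧ ∀ n : ℕ, (tpow f n).2 ≠ 0

section real

variable {q : ℕ} {K : Type} [Field K] [CharZero K] {C : Type u} [Category.{v} C] [Preadditive C]
  [Linear ℚ C] [MonoidalCategory C] [BraidedCategory C] [RightRigidCategory C]
  (R : Realisation q K C)

/-- The characteristic polynomials of the Frobenius are multiplicative on short exact sequences. -/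
def ZetaMultiplicative : Prop :=
  ∀ S : ShortComplex C, S.ShortExact → ∀ i, R.P S.X₂ i = R.P S.X₁ i * R.P S.X₃ i

/-- An object without cohomology is zero. -/
def NoPhantom : Prop :=
  ∀ M : C, (∀ i, Subsingleton ((R.H i).obj M)) → IsZero M

/-- The Tate classes of `M`: the elements of `H 0 M` which are fixed by the Frobenius. -/
def tateClasses (M : C) : Submodule K ((R.H 0).obj M) :=
  LinearMap.ker (((R.H 0).map (R.frob M)).hom - LinearMap.id)

/-- The subspace spanned by the algebraic classes: by the images of `H 0 1` under the maps induced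
by the morphisms from the unit to `M`. -/
def algClasses (M : C) : Submodule K ((R.H 0).obj M) :=
  ⨆ f : 𝟙_ C ⟶ M, LinearMap.range ((R.H 0).map f).hom

/-- `Hom(1, M)` is finite-dimensional, and its dimension is at most the dimension of the space of
Tate classes of `M`. -/
def RankBound : Prop :=
  ∀ M : C, Module.Finite ℚ (𝟙_ C ⟶ M) ∧
    Module.finrank ℚ (𝟙_ C ⟶ M) ≤ Module.finrank K (tateClasses R M)

/-- Numerically trivial endomorphisms are nilpotent, and so are the endomorphisms which are
nilpotent on the cohomology. -/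
def Nilpotence : Prop :=
  ∀ (M : C) (f : End M), (∀ g : M ⟶ M, tr ((f : M ⟶ M) ≫ g) = 0) ∨
    (∀ i, ∃ n : ℕ, (R.H i).map (f ^ n : End M) = 0) → IsNilpotent f

/-- Every object is the direct sum of objects with cohomology in one degree, by projectors which
are polynomials in the Frobenius endomorphism. -/
def Decomposition : Prop :=
  ∀ M : C, ∃ (I : Finset ℤ) (e : ℤ → End M),
    (∀ i, e i ∈ Algebra.adjoin ℚ ({R.frob M} : Set (End M))) ∧ (∀ i, e i * e i = e i) ∧
    (∀ i j, i ≠ j → e i * e j = 0) ∧ ∑ i ∈ I, e i = 1 ∧
    ∀ i j, (i = j → (R.H j).map (e i : M ⟶ M) = 𝟙 _) ∧ (i ≠ j → (R.H j).map (e i : M ⟶ M) = 0)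

/-- A morphism which is bijective on `H i` has an inverse on `H i` which is induced by a morphism;
a morphism which is bijective on the whole cohomology is an isomorphism. -/
def Inverses : Prop :=
  ∀ (M N : C) (f : M ⟶ N), (∀ i, IsIso ((R.H i).map f) →
    ∃ g : N ⟶ M, (R.H i).map (f ≫ g) = 𝟙 _ ∧ (R.H i).map (g ≫ f) = 𝟙 _) ∧
    ((∀ i, IsIso ((R.H i).map f)) → IsIso f)

/-- The length of an object is at most the dimension of the cohomology. -/
def FiniteLength : Prop :=
  ∀ (M : C) (s : LTSeries (Subobject M)), s.length ≤ ∑ᶠ i : ℤ, Module.finrank K ((R.H i).obj M)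

/-- The conjecture of Tate for `M`: the Tate classes are spanned by algebraic classes. -/
def TateFor (M : C) : Prop := tateClasses R M ≤ algClasses R M

/-- The conjecture of Tate for `M` implies that homological equivalence is trivial on
`Hom(1, M)`. -/
def TateHom : Prop :=
  ∀ M : C, TateFor R M → ∀ f : 𝟙_ C ⟶ M, (R.H 0).map f = 0 → f = 0

/-- The strong form of the conjecture of Tate for `M`: the dimension of the space of Tate classes
is (at most) the dimension of `Hom(1, M)` modulo numerically trivial morphisms. -/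
def StrongTateFor (M : C) : Prop :=
  Module.finrank K (tateClasses R M) ≤ Module.finrank ℚ ((𝟙_ C ⟶ M) ⧸ numTriv C M)

/-- The strong form of the conjecture of Tate for `M` implies that there are no nonzero numerically
trivial morphisms from the unit to `M`. -/
def TateNum : Prop := ∀ M : C, StrongTateFor R M → numTriv C M = ⊥

end real

end Pool.Agent.V7H2.AB
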