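import Pool.Agent.V7H2.AB.Real

/-!
Finiteness of the groups of cycles, no phantoms, conservativity.
-/

set_option autoImplicit false

open CategoryTheory CategoryTheory.Limits MonoidalCategory Polynomial

namespace Pool.Agent.V7H2.AB

universe v u

variable {q : ℕ} {K : Type} [Field K] [CharZero K] [IsAlgClosed K]
  {C : Type u} [Category.{v} C] [Abelian C] [Linear ℚ C] [MonoidalCategory C]
  [SymmetricCategory C] [RightRigidCategory C] [MonoidalPreadditive C] [MonoidalLinear ℚ C]

variable (R : Realisation q K C) (hU : UnitQ C)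

omit [IsAlgClosed K] [MonoidalPreadditive C] [MonoidalLinear ℚ C] in
theorem mult_one_weight (hq : 2 ≤ q) {M : C} {i : ℤ} (h : mult R M i 1 ≠ 0) : i = 0 := by
  rw [mult_ne_zero_iff] at h
  have h1 : (R.P M i).eval 1 = 0 := by
    have h2 : algebraMap ℚ K ((R.P M i).eval 1) = 0 := by
      rw [← h, ← map_one (algebraMap ℚ K), aeval_algebraMap_apply]
      simp
    exact (map_eq_zero _).1 h2
  have h3 := R.weight M i 1 (by
    rw [← map_one (algebraMap ℚ ℂ), aeval_algebraMap_apply]
    simp [h1])
  have hq' : (1 : ℝ) < q := by exact_mod_cast (by omega : 1 < q)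
  refine (zpow_right_injective₀ (a := (q : ℝ)) (by linarith) hq'.ne' ?_)
  change (q : ℝ) ^ i = (q : ℝ) ^ (0 : ℤ)
  rw [← h3]
  simp

open Classical in
include hU in
/-- The traces of the powers of the Frobenius determine the alternating multiplicities. -/
theorem alt_mult (M : C) (a : ℚ) (h : ∀ n : ℕ, sc hU (tr (Fr R M ^ n : End M)) = a) (l : K)
    (I : Finset ℤ) (hI : degs R M ⊆ I) :
    ∑ i ∈ I, (-1 : K) ^ i * (mult R M i l : K) = if l = 1 then (a : K) else 0 := by
  set Λ : Finset K := insert 1 (insert l (I.biUnion fun j => eig R M j)) with hΛ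
  have hL : ∀ j ∈ I, ∀ l, mult R M j l ≠ 0 → l ∈ Λ := fun j hj l hl => by
    rw [hΛ, Finset.mem_insert, Finset.mem_insert, Finset.mem_biUnion]
    exact Or.inr (Or.inr ⟨j, hj, mem_eig R hl⟩)
  have key : ∀ n : ℕ, ∑ m ∈ Λ, ((∑ j ∈ I, (-1 : K) ^ j * (mult R M j m : K)) -
      if m = 1 then (a : K) else 0) * m ^ n = 0 := by
    intro n
    simp only [sub_mul, Finset.sum_sub_distrib, ite_mul, zero_mul]
    rw [← sc_tr_pow R hU M n I hI Λ hL, h n, Finset.sum_ite_eq' Λ (1 : K)]
    simp [hΛ]
  have h0 := pow_indep Λ (fun m => (∑ j ∈ I, (-1 : K) ^ j * (mult R M j m : K)) -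
      if m = 1 then (a : K) else 0) key l (by simp [hΛ])
  exact sub_eq_zero.1 h0

include hU in
theorem mult_unit (hq : 2 ≤ q) : mult R (𝟙_ C) 0 (1 : K) = 1 := by
  classical
  have h1 : ∀ n : ℕ, sc hU (tr (Fr R (𝟙_ C) ^ n : End (𝟙_ C))) = 1 := by
    intro n
    have e : (Fr R (𝟙_ C) : End (𝟙_ C)) = 1 := R.frob_unit
    rw [e, one_pow]
    apply smul_inj hU
    rw [← sc_spec]
    change tr (𝟙 (𝟙_ C)) = _
    rw [tr_unit, one_smul]
  have h2 := alt_mult R hU (𝟙_ C) 1 h1 1 (insert 0 (degs R (𝟙_ C))) (Finset.subset_insert _ _)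
  rw [if_pos rfl, Finset.sum_eq_single (0 : ℤ)] at h2
  · simpa using h2
  · intro j _ hj
    have : mult R (𝟙_ C) j (1 : K) = 0 := by
      by_contra hc
      exact hj (mult_one_weight R hq hc)
    rw [this]
    simp
  · intro h
    exact absurd (Finset.mem_insert_self _ _) h

include hU in
/-- Linearly independent morphisms from the unit. -/
theorem indep_le (hq : 2 ≤ q) : ∀ (r : ℕ) (M : C) (f : Fin r → (𝟙_ C ⟶ M)),
    LinearIndependent ℚ f → r ≤ mult R M 0 (1 : K) := by
  intro r
  induction r with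
  | zero => intro M f _; exact Nat.zero_le _
  | succ r ih =>
    intro M f hf
    have hne : f 0 ≠ 0 := hf.ne_zero 0
    have hmono := mono_of_ne_zero hU (f 0) hne
    have hS := shortExact_cokernel (f 0)
    have hadd := mult_add R hU hq _ hS 0 (1 : K)
    dsimp only at hadd
    rw [mult_unit R hU hq] at hadd
    have hg : LinearIndependent ℚ (fun j : Fin r => f j.succ ≫ cokernel.π (f 0)) := by
      rw [Fintype.linearIndependent_iff]
      intro a ha j
      have h1 : (∑ j, a j • f j.succ) ≫ cokernel.π (f 0) = 0 := by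
        rw [Preadditive.sum_comp, ← ha]
        refine Finset.sum_congr rfl fun j _ => ?_
        rw [Linear.smul_comp]
      have hm : Mono (ShortComplex.mk (f 0) (cokernel.π (f 0)) (cokernel.condition _)).f := hmono
      obtain ⟨l, hl⟩ : ∃ l, l ≫ f 0 = ∑ j, a j • f j.succ :=
        ⟨hS.exact.lift _ h1, hS.exact.lift_f _ h1⟩
      obtain ⟨c, hc⟩ := hU.1 l
      rw [hc, Linear.smul_comp, Category.id_comp] at hl
      rw [Fintype.linearIndependent_iff] at hf
      have h2 := hf (Fin.cons (-c) a) (by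
        rw [Fin.sum_univ_succ]
        simp only [Fin.cons_zero, Fin.cons_succ]
        rw [← hl, neg_smul, neg_add_cancel]) j.succ
      simpa using h2
    have h3 := ih _ _ hg
    omega

include hU in
theorem hom_finite (hq : 2 ≤ q) (M : C) : Module.Finite ℚ (𝟙_ C ⟶ M) ∧
    Module.finrank ℚ (𝟙_ C ⟶ M) ≤ mult R M 0 (1 : K) := by
  have h1 : Module.rank ℚ (𝟙_ C ⟶ M) ≤ (mult R M 0 (1 : K) : ℕ) := by
    apply rank_le
    intro s hs
    have h2 : LinearIndependent ℚ (fun i : Fin s.card => ((s.equivFin.symm i : s) : 𝟙_ C ⟶ M)) :=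
      hs.comp _ s.equivFin.symm.injective
    exact indep_le R hU hq _ M _ h2
  have h3 : Module.Finite ℚ (𝟙_ C ⟶ M) :=
    Module.rank_lt_aleph0_iff.1 (h1.trans_lt (Cardinal.natCast_lt_aleph0))
  exact ⟨h3, Module.finrank_le_of_rank_le h1⟩

include hU in
/-- There are no phantoms. -/
theorem isZero_of_H (hq : 2 ≤ q) (M : C) (h : ∀ i, Subsingleton ((R.H i).obj M)) : IsZero M := by
  have h1 : Subsingleton ((R.H 0).obj (M ⊗ Mᘁ)) := by
    have h2 := R.kunneth M Mᘁ 0
    have h3 : ∀ i : ℤ, Module.finrank K ((R.H i).obj M) = 0 := fun i => by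
      have := h i
      exact Module.finrank_zero_of_subsingleton
    simp only [h3, zero_mul, finsum_zero] at h2
    exact Module.finrank_zero_iff.1 h2
  have h4 := mult_zero_of_subsingleton R h1 (1 : K)
  obtain ⟨h5, h6⟩ := hom_finite R hU hq (M ⊗ Mᘁ)
  rw [h4, Nat.le_zero] at h6
  have h7 := Module.finrank_zero_iff.1 h6
  exact isZero_of_coev (h7.elim _ _)

include hU in
theorem subsingleton_ker (hq : 2 ≤ q) {M N : C} (f : M ⟶ N) (i : ℤ)
    (h : Function.Injective ((R.H i).map f).hom) : Subsingleton ((R.H i).obj (kernel f)) := by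
  have e : cokernel.π (kernel.ι f) ≫ cokernel.desc (kernel.ι f) f (kernel.condition f) = f :=
    cokernel.π_desc _ _ _
  have h1 : Function.Injective ((R.H i).map (cokernel.π (kernel.ι f))).hom := by
    rw [← e, (R.H i).map_comp, ModuleCat.hom_comp] at h
    exact Function.Injective.of_comp (f := ((R.H i).map
      (cokernel.desc (kernel.ι f) f (kernel.condition f))).hom) h
  have h2 := LinearMap.finrank_le_finrank_of_injective h1
  have h3 := dim_add R hU hq _ (shortExact_cokernel (kernel.ι f)) i
  dsimp only at h3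
  exact (Module.finrank_zero_iff (R := K)).1 (by omega)

include hU in
theorem subsingleton_coker (hq : 2 ≤ q) {M N : C} (f : M ⟶ N) (i : ℤ)
    (h : Function.Surjective ((R.H i).map f).hom) :
    Subsingleton ((R.H i).obj (cokernel f)) := by
  have e : kernel.lift (cokernel.π f) f (cokernel.condition f) ≫ kernel.ι (cokernel.π f) = f :=
    kernel.lift_ι _ _ _
  have h1 : Function.Surjective ((R.H i).map (kernel.ι (cokernel.π f))).hom := by
    rw [← e, (R.H i).map_comp, ModuleCat.hom_comp] at h
    exact Function.Surjective.of_comp (g := ((R.H i).map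
      (kernel.lift (cokernel.π f) f (cokernel.condition f))).hom) h
  have h2 := LinearMap.finrank_le_finrank_of_surjective h1
  have h3 := dim_add R hU hq _ (shortExact_kernel (cokernel.π f)) i
  dsimp only at h3
  exact (Module.finrank_zero_iff (R := K)).1 (by omega)

include hU in
theorem isIso_of_H (hq : 2 ≤ q) {M N : C} (f : M ⟶ N)
    (h : ∀ i, Function.Bijective ((R.H i).map f).hom) : IsIso f := by
  have h1 : IsZero (kernel f) := isZero_of_H R hU hq _ fun i => subsingleton_ker R hU hq f i (h i).1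
  have h2 : IsZero (cokernel f) :=
    isZero_of_H R hU hq _ fun i => subsingleton_coker R hU hq f i (h i).2
  have : Mono f := Preadditive.mono_of_kernel_zero (h1.eq_zero_of_src _)
  have : Epi f := Preadditive.epi_of_cokernel_zero (h2.eq_zero_of_tgt _)
  exact isIso_of_mono_of_epi f

include hU in
theorem finrank_hom_le (hq : 2 ≤ q) (M : C) :
    Module.finrank ℚ (𝟙_ C ⟶ M) ≤ Module.finrank K ((R.H 0).obj M) := by
  classical
  refine (hom_finite R hU hq M).2.trans ?_
  rw [finrank_eq R M 0 (insert 1 (eig R M 0)) (fun l hl => by simp [mem_eig R hl])]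
  exact Finset.single_le_sum (f := fun l => mult R M 0 l) (fun _ _ => Nat.zero_le _)
    (Finset.mem_insert_self _ _)

include hU in
/-- The dimension of `Hom(1, M)` is at most the dimension of the space of Tate classes. -/
theorem finrank_hom_le_tate (hq : 2 ≤ q) (M : C) :
    Module.finrank ℚ (𝟙_ C ⟶ M) ≤ Module.finrank K (tateClasses R M) := by
  set φ : M ⟶ M := R.frob M - 𝟙 M with hφ
  -- morphisms from the unit factor through the kernel
  have hf : ∀ f : 𝟙_ C ⟶ M, f ≫ φ = 0 := by
    intro f
    rw [hφ, Preadditive.comp_sub, R.frob_comm, R.frob_unit, Category.id_comp, Category.comp_id,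
      sub_self]
  let L : (𝟙_ C ⟶ M) →ₗ[ℚ] (𝟙_ C ⟶ kernel φ) :=
    { toFun := fun f => kernel.lift φ f (hf f)
      map_add' := fun f g => by
        rw [← cancel_mono (kernel.ι φ), Preadditive.add_comp, kernel.lift_ι, kernel.lift_ι,
          kernel.lift_ι]
      map_smul' := fun c f => by
        rw [← cancel_mono (kernel.ι φ), RingHom.id_apply, Linear.smul_comp, kernel.lift_ι,
          kernel.lift_ι] }
  have hL : Function.Injective L := by
    intro f g h
    have h1 : kernel.lift φ f (hf f) = kernel.lift φ g (hf g) := h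
    rw [← kernel.lift_ι φ f (hf f), h1, kernel.lift_ι]
  have := (hom_finite R hU hq (kernel φ)).1
  have h1 := LinearMap.finrank_le_finrank_of_injective hL
  have h2 := finrank_hom_le R hU hq (kernel φ)
  have h3 := dim_add R hU hq _ (shortExact_cokernel (kernel.ι φ)) 0
  dsimp only at h3
  -- the rank of the Frobenius minus one
  have e : cokernel.π (kernel.ι φ) ≫ cokernel.desc (kernel.ι φ) φ (kernel.condition φ) = φ :=
    cokernel.π_desc _ _ _
  have h4 : Module.finrank K (LinearMap.range ((R.H 0).map φ).hom) ≤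
      Module.finrank K ((R.H 0).obj (cokernel (kernel.ι φ))) := by
    have e2 : ((R.H 0).map φ).hom =
        ((R.H 0).map (cokernel.desc (kernel.ι φ) φ (kernel.condition φ))).hom ∘ₗ
          ((R.H 0).map (cokernel.π (kernel.ι φ))).hom := by
      rw [← ModuleCat.hom_comp, ← (R.H 0).map_comp, e]
    rw [e2]
    refine (Submodule.finrank_mono (LinearMap.range_comp_le_range _ _)).trans ?_
    exact LinearMap.finrank_range_le
      ((R.H 0).map (cokernel.desc (kernel.ι φ) φ (kernel.condition φ))).hom
  have h5 := LinearMap.finrank_range_add_finrank_ker ((R.H 0).map φ).hom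
  have h6 : tateClasses R M = LinearMap.ker ((R.H 0).map φ).hom := by
    rw [tateClasses, hφ, (R.H 0).map_sub, (R.H 0).map_id]
    rfl
  rw [h6]
  omega

include hU in
theorem finrank_unit (hq : 2 ≤ q) : Module.finrank K ((R.H 0).obj (𝟙_ C)) = 1 := by
  classical
  have h1 : ∀ n : ℕ, sc hU (tr (Fr R (𝟙_ C) ^ n : End (𝟙_ C))) = 1 := by
    intro n
    have e : (Fr R (𝟙_ C) : End (𝟙_ C)) = 1 := R.frob_unit
    rw [e, one_pow]
    apply smul_inj hU
    rw [← sc_spec]
    change tr (𝟙 (𝟙_ C)) = _
    rw [tr_unit, one_smul]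
  have h2 : ∀ l : K, l ≠ 1 → mult R (𝟙_ C) 0 l = 0 := by
    intro l hl
    by_contra hne
    have h3 := alt_mult R hU (𝟙_ C) 1 h1 l (insert 0 (degs R (𝟙_ C))) (Finset.subset_insert _ _)
    rw [if_neg hl, Finset.sum_eq_single (0 : ℤ)] at h3
    · exact hne (by simpa using h3)
    · intro j _ hj
      have : mult R (𝟙_ C) j l = 0 := by
        by_contra hc
        exact hj (mult_weight R hq hc hne)
      rw [this]
      simp
    · intro h
      exact absurd (Finset.mem_insert_self _ _) h
  rw [finrank_eq R (𝟙_ C) 0 {1} (fun l hl => by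
    rw [Finset.mem_singleton]
    by_contra hc
    exact hl (h2 l hc)), Finset.sum_singleton, mult_unit R hU hq]

include hU in
/-- Under the conjecture of Tate homologically trivial classes vanish. -/
theorem tate_hom (hq : 2 ≤ q) (M : C) (hT : TateFor R M) (f : 𝟙_ C ⟶ M)
    (hf : (R.H 0).map f = 0) : f = 0 := by
  classical
  have hfin := (hom_finite R hU hq M).1
  have hle := finrank_hom_le_tate R hU hq M
  obtain ⟨v, hv0, hv⟩ := finrank_eq_one_iff'.1 (finrank_unit R hU hq)
  let b := Module.finBasis ℚ (𝟙_ C ⟶ M)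
  let w : Fin (Module.finrank ℚ (𝟙_ C ⟶ M)) → (R.H 0).obj M := fun j => ((R.H 0).map (b j)).hom v
  -- the map from Hom(1, M) to the cohomology
  have hadd : ∀ g g' : 𝟙_ C ⟶ M, ((R.H 0).map (g + g')).hom v =
      ((R.H 0).map g).hom v + ((R.H 0).map g').hom v := by
    intro g g'
    rw [(R.H 0).map_add]
    rfl
  let A : (𝟙_ C ⟶ M) →+ (R.H 0).obj M := AddMonoidHom.mk' (fun g => ((R.H 0).map g).hom v) hadd
  have hAq : ∀ (c : ℚ) (g : 𝟙_ C ⟶ M), A (c • g) = (c : K) • A g := by
    intro c g
    exact map_ratCast_smul A ℚ K c g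
  have hspan : algClasses R M ≤ Submodule.span K (Set.range w) := by
    refine iSup_le fun g => ?_
    rintro _ ⟨x, rfl⟩
    obtain ⟨c, rfl⟩ := hv x
    rw [map_smul]
    refine Submodule.smul_mem _ _ ?_
    have h1 : ((R.H 0).map g).hom v = A g := rfl
    have h2 : g = ∑ j, b.repr g j • b j := (b.sum_repr g).symm
    rw [h1, h2, map_sum]
    refine Submodule.sum_mem _ fun j _ => ?_
    rw [hAq]
    exact Submodule.smul_mem _ _ (Submodule.subset_span ⟨j, rfl⟩)
  have h3 : Module.finrank K (tateClasses R M) ≤ (Set.range w).finrank K :=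
    Submodule.finrank_mono (hT.trans hspan)
  have h4 : LinearIndependent K w := by
    rw [linearIndependent_iff_card_le_finrank_span, Fintype.card_fin]
    exact hle.trans h3
  have h5 : A f = 0 := by
    change ((R.H 0).map f).hom v = 0
    rw [hf]
    rfl
  have h6 : f = ∑ j, b.repr f j • b j := (b.sum_repr f).symm
  rw [h6, map_sum] at h5
  have h7 : ∑ j, ((b.repr f j : ℚ) : K) • w j = 0 := by
    rw [← h5]
    exact Finset.sum_congr rfl fun j _ => (hAq _ _).symm
  have h8 := Fintype.linearIndependent_iff.1 h4 _ h7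
  rw [h6]
  refine Finset.sum_eq_zero fun j _ => ?_
  have h9 : b.repr f j = 0 := by exact_mod_cast h8 j
  rw [h9, zero_smul]

end Pool.Agent.V7H2.AB
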