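import Pool.Agent.V7H2.AB.CK

/-!
Algebraicity of inverses, the Tate conjecture, lengths.
-/

set_option autoImplicit false

open CategoryTheory CategoryTheory.Limits MonoidalCategory

namespace Pool.Agent.V7H2.AB

universe v u

variable {q : ℕ} {K : Type} [Field K] [CharZero K] [IsAlgClosed K]
  {C : Type u} [Category.{v} C] [Abelian C] [Linear ℚ C] [MonoidalCategory C]
  [SymmetricCategory C] [RightRigidCategory C] [MonoidalPreadditive C] [MonoidalLinear ℚ C]

variable (R : Realisation q K C) (hU : UnitQ C)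

omit [IsAlgClosed K] [MonoidalPreadditive C] [MonoidalLinear ℚ C] in
theorem map_eq_of_HE {M : C} {i : ℤ} {e : End M} (h : HE R i M e = 1) :
    (R.H i).map (e : M ⟶ M) = 𝟙 _ := by
  ext x
  exact LinearMap.congr_fun h x

omit [IsAlgClosed K] [MonoidalPreadditive C] [MonoidalLinear ℚ C] in
theorem bij_of_inv {M N : C} {i : ℤ} (f : M ⟶ N) (g : N ⟶ M) (h1 : (R.H i).map (f ≫ g) = 𝟙 _)
    (h2 : (R.H i).map (g ≫ f) = 𝟙 _) : Function.Bijective ((R.H i).map f).hom := by
  rw [(R.H i).map_comp] at h1 h2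
  constructor
  · intro x y hxy
    have h3 := congrArg (fun t => t.hom x) h1
    have h4 := congrArg (fun t => t.hom y) h1
    have h5 : ((R.H i).map g).hom (((R.H i).map f).hom x) = x := h3
    have h6 : ((R.H i).map g).hom (((R.H i).map f).hom y) = y := h4
    rw [← h5, ← h6, hxy]
  · intro y
    have h3 := congrArg (fun t => t.hom y) h2
    exact ⟨((R.H i).map g).hom y, h3⟩

include hU in
/-- The inverse of an isomorphism in one degree is induced by a morphism. -/
theorem exists_inverse (hq : 2 ≤ q) {M N : C} (f : M ⟶ N) (i : ℤ)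
    (h : Function.Bijective ((R.H i).map f).hom) :
    ∃ g : N ⟶ M, (R.H i).map (f ≫ g) = 𝟙 _ ∧ (R.H i).map (g ≫ f) = 𝟙 _ := by
  obtain ⟨e, -, he, -, -, heH⟩ := exists_decomp R hU hq M
  obtain ⟨e', -, he', -, -, heH'⟩ := exists_decomp R hU hq N
  obtain ⟨Y, ι, π, h1, h2⟩ := IsIdempotentComplete.idempotents_split M (e i) (he i)
  obtain ⟨Y', ι', π', h1', h2'⟩ := IsIdempotentComplete.idempotents_split N (e' i) (he' i)
  have hi : (R.H i).map (π ≫ ι) = 𝟙 _ := by
    rw [h2]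
    exact map_eq_of_HE R (by rw [heH, if_pos rfl])
  have hi' : (R.H i).map (π' ≫ ι') = 𝟙 _ := by
    rw [h2']
    exact map_eq_of_HE R (by rw [heH', if_pos rfl])
  have hι := bij_of_inv R (i := i) ι π (by rw [h1, (R.H i).map_id]) hi
  have hπ' := bij_of_inv R (i := i) π' ι' hi' (by rw [h1', (R.H i).map_id])
  have hφ : IsIso (ι ≫ f ≫ π') := by
    apply isIso_of_H R hU hq
    intro j
    by_cases hj : i = j
    · subst hj
      rw [(R.H i).map_comp, (R.H i).map_comp, ModuleCat.hom_comp, ModuleCat.hom_comp]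
      exact (hπ'.comp h).comp hι
    · have s1 : Subsingleton ((R.H j).obj Y) :=
        subsingleton_of_split R _ ι π h1 h2 j (by rw [heH, if_neg hj])
      have s2 : Subsingleton ((R.H j).obj Y') :=
        subsingleton_of_split R _ ι' π' h1' h2' j (by rw [heH', if_neg hj])
      exact ⟨fun x y _ => Subsingleton.elim _ _, fun y => ⟨0, Subsingleton.elim _ _⟩⟩
  refine ⟨π' ≫ inv (ι ≫ f ≫ π') ≫ ι, ?_, ?_⟩
  · have e1 : (R.H i).map (f ≫ π' ≫ inv (ι ≫ f ≫ π') ≫ ι) =
        (R.H i).map ((π ≫ ι) ≫ f ≫ π' ≫ inv (ι ≫ f ≫ π') ≫ ι) := by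
      rw [(R.H i).map_comp (π ≫ ι), hi, Category.id_comp]
    have e2 : (π ≫ ι) ≫ f ≫ π' ≫ inv (ι ≫ f ≫ π') ≫ ι = π ≫ ι := by
      have : (π ≫ ι) ≫ f ≫ π' ≫ inv (ι ≫ f ≫ π') ≫ ι =
          π ≫ ((ι ≫ f ≫ π') ≫ inv (ι ≫ f ≫ π')) ≫ ι := by simp only [Category.assoc]
      rw [this, IsIso.hom_inv_id, Category.id_comp]
    rw [e1, e2, hi]
  · have e1 : (R.H i).map ((π' ≫ inv (ι ≫ f ≫ π') ≫ ι) ≫ f) =
        (R.H i).map (((π' ≫ inv (ι ≫ f ≫ π') ≫ ι) ≫ f) ≫ π' ≫ ι') := by
      rw [(R.H i).map_comp _ (π' ≫ ι'), hi', Category.comp_id]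
    have e2 : ((π' ≫ inv (ι ≫ f ≫ π') ≫ ι) ≫ f) ≫ π' ≫ ι' = π' ≫ ι' := by
      have : ((π' ≫ inv (ι ≫ f ≫ π') ≫ ι) ≫ f) ≫ π' ≫ ι' =
          π' ≫ (inv (ι ≫ f ≫ π') ≫ (ι ≫ f ≫ π')) ≫ ι' := by simp only [Category.assoc]
      rw [this, IsIso.inv_hom_id, Category.id_comp]
    rw [e1, e2, hi']

omit [IsAlgClosed K] [MonoidalPreadditive C] [MonoidalLinear ℚ C] in
theorem mult_one_eq (M : C) (i : ℤ) : mult R M i (1 : K) = (R.P M i).rootMultiplicity 1 := by
  have h := Polynomial.eq_rootMultiplicity_map (p := R.P M i) (algebraMap ℚ K).injective 1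
  rw [map_one] at h
  exact h.symm

include hU in
theorem tate_num (hq : 2 ≤ q) (M : C) (h : StrongTateFor R M) : numTriv C M = ⊥ := by
  have h1 := (hom_finite R hU hq M).1
  have h2 := finrank_hom_le_tate R hU hq M
  have h3 := Submodule.finrank_quotient_add_finrank (numTriv C M)
  have h0 : Module.finrank K (tateClasses R M) ≤
    Module.finrank ℚ ((𝟙_ C ⟶ M) ⧸ numTriv C M) := h
  have h4 : Module.finrank ℚ (numTriv C M) = 0 := by omega
  exact Submodule.finrank_eq_zero.1 h4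

omit [Linear ℚ C] [MonoidalLinear ℚ C] [IsAlgClosed K] in
/-- The functionals on the morphisms. -/
theorem exists_dual {M N : C} (g : N ⊗ Mᘁ ⟶ 𝟙_ C) :
    ∃ p : N ⟶ M, ∀ f : M ⟶ N, (η_ M Mᘁ ≫ f ▷ Mᘁ) ≫ g = tr (f ≫ p) := by
  letI := BraidedCategory.exactPairing_swap M Mᘁ
  obtain ⟨p, hp⟩ := (tensorRightHomEquiv N Mᘁ M (𝟙_ C)).symm.surjective g
  refine ⟨p ≫ (λ_ M).hom, fun f => ?_⟩
  have h1 : g = (p ≫ (λ_ M).hom) ▷ Mᘁ ≫ (β_ M Mᘁ).hom ≫ ε_ M Mᘁ := by
    rw [← hp]
    have h2 : (tensorRightHomEquiv N Mᘁ M (𝟙_ C)).symm p =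
        p ▷ Mᘁ ≫ (α_ _ _ _).hom ≫ 𝟙_ C ◁ ((β_ M Mᘁ).hom ≫ ε_ M Mᘁ) ≫ (ρ_ _).hom := rfl
    rw [h2]
    simp [← unitors_equal]
  rw [h1, tr, comp_whiskerRight, comp_whiskerRight, comp_whiskerRight]
  simp only [Category.assoc]

include hU in
theorem tate_num_all (hq : 2 ≤ q)
    (h : ∀ M : C, StrongTateFor R M) : NumTrivVanish C := by
  intro M N f hf
  have h1 := tate_num R hU hq (N ⊗ Mᘁ) (h _)
  have h2 : nameL (C := C) M N f ∈ numTriv C (N ⊗ Mᘁ) := by
    intro g
    obtain ⟨p, hp⟩ := exists_dual g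
    have h3 := hp f
    rw [hf p] at h3
    exact h3
  rw [h1, Submodule.mem_bot] at h2
  exact nameL_inj M N (by rw [h2, map_zero])

/-- The total dimension of the cohomology. -/
noncomputable def tdim (M : C) : ℕ := ∑ᶠ i : ℤ, Module.finrank K ((R.H i).obj M)

omit [IsAlgClosed K] [MonoidalPreadditive C] [MonoidalLinear ℚ C] in
theorem tdim_eq (M : C) (I : Finset ℤ) (hI : degs R M ⊆ I) :
    tdim R M = ∑ i ∈ I, Module.finrank K ((R.H i).obj M) := by
  refine finsum_eq_sum_of_support_subset _ ?_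
  intro i hi
  by_contra h
  apply hi
  have hs := subsingleton_of_notMem R (fun h' => h (hI h'))
  exact Module.finrank_zero_of_subsingleton

include hU in
theorem tdim_add (hq : 2 ≤ q) (S : ShortComplex C) (hS : S.ShortExact) :
    tdim R S.X₂ = tdim R S.X₁ + tdim R S.X₃ := by
  classical
  set I : Finset ℤ := degs R S.X₁ ∪ degs R S.X₂ ∪ degs R S.X₃ with hI
  rw [tdim_eq R S.X₁ I (fun x hx => by simp [hI, hx]), tdim_eq R S.X₂ I (fun x hx => by simp [hI, hx]),
    tdim_eq R S.X₃ I (fun x hx => by simp [hI, hx]), ← Finset.sum_add_distrib]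
  exact Finset.sum_congr rfl fun i _ => dim_add R hU hq S hS i

omit [IsAlgClosed K] [MonoidalPreadditive C] [MonoidalLinear ℚ C] in
theorem tdim_pos_of {M : C} (h : tdim R M = 0) (i : ℤ) : Subsingleton ((R.H i).obj M) := by
  classical
  rw [tdim_eq R M (insert i (degs R M)) (Finset.subset_insert _ _), Finset.sum_eq_zero_iff] at h
  exact (Module.finrank_zero_iff (R := K)).1 (h i (Finset.mem_insert_self _ _))

include hU in
theorem tdim_lt (hq : 2 ≤ q) {M : C} {A B : Subobject M} (h : A < B) :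
    tdim R (A : C) < tdim R (B : C) := by
  have h1 := tdim_add R hU hq _ (shortExact_cokernel (Subobject.ofLE A B h.le))
  dsimp only at h1
  rcases Nat.eq_zero_or_pos (tdim R (cokernel (Subobject.ofLE A B h.le))) with h0 | h0
  · exfalso
    have h2 := isZero_of_H R hU hq _ (tdim_pos_of R h0)
    have h3 : Epi (Subobject.ofLE A B h.le) :=
      Preadditive.epi_of_cokernel_zero (h2.eq_zero_of_tgt _)
    have h4 : IsIso (Subobject.ofLE A B h.le) := isIso_of_mono_of_epi _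
    apply h.not_ge
    refine Subobject.le_of_comm (inv (Subobject.ofLE A B h.le)) ?_
    rw [IsIso.inv_comp_eq, Subobject.ofLE_arrow]
  · omega

include hU in
theorem tdim_sub_le (hq : 2 ≤ q) {M : C} (A : Subobject M) : tdim R (A : C) ≤ tdim R M := by
  have h1 := tdim_add R hU hq _ (shortExact_cokernel A.arrow)
  dsimp only at h1
  omega

include hU in
theorem length_le (hq : 2 ≤ q) (M : C) (s : LTSeries (Subobject M)) : s.length ≤ tdim R M := by
  have hmono : StrictMono (fun A : Subobject M => tdim R (A : C)) := fun A B h => tdim_lt R hU hq h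
  have h1 := (s.map _ hmono).head_add_length_le_nat
  have h2 : (s.map _ hmono).last ≤ tdim R M := tdim_sub_le R hU hq _
  have h3 : (s.map _ hmono).length = s.length := rfl
  omega

end Pool.Agent.V7H2.AB
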