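import Pool.Agent.V7H2.AB.Main

/-!
Jannsen's theorem: if the numerically trivial morphisms vanish, the category is abelian.
-/

set_option autoImplicit false

open CategoryTheory CategoryTheory.Limits MonoidalCategory

namespace Pool.Agent.V7H2.AB

universe v u

section ring

/-- Semisimple rings are regular. -/
theorem regular_of_semisimple {E : Type*} [Ring E] [IsSemisimpleRing E] (a : E) :
    ∃ b : E, a * b * a = a := by
  obtain ⟨I', hI⟩ := exists_isCompl (Submodule.span E {a} : Submodule E E)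
  have h1 : (1 : E) ∈ (Submodule.span E {a} : Submodule E E) ⊔ I' := by
    rw [hI.sup_eq_top]
    trivial
  rw [Submodule.mem_sup] at h1
  obtain ⟨e, he, e', he', hsum⟩ := h1
  obtain ⟨b, rfl⟩ := Submodule.mem_span_singleton.1 he
  refine ⟨b, ?_⟩
  have h2 : a = a * (b * a) + a * e' := by
    rw [← mul_add]
    change a = a * (b • a + e')
    rw [hsum, mul_one]
  have h3 : a * e' ∈ (Submodule.span E {a} : Submodule E E) := by
    have : a * e' = a - (a * b) • a := by
      rw [smul_eq_mul, mul_assoc]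
      nth_rewrite 2 [h2]
      rw [add_sub_cancel_left]
    rw [this]
    exact Submodule.sub_mem _ (Submodule.mem_span_singleton_self a)
      (Submodule.smul_mem _ _ (Submodule.mem_span_singleton_self a))
  have h4 : a * e' ∈ I' := I'.smul_mem a he'
  have h5 : a * e' = 0 := by
    have := hI.disjoint.le_bot ⟨h3, h4⟩
    simpa using this
  rw [h5, add_zero] at h2
  rw [mul_assoc]
  exact h2.symm

end ring

variable {q : ℕ} {K : Type} [Field K] [CharZero K] [IsAlgClosed K]
  {C : Type u} [Category.{v} C] [Preadditive C] [Linear ℚ C] [MonoidalCategory C]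
  [SymmetricCategory C] [RightRigidCategory C] [MonoidalPreadditive C] [MonoidalLinear ℚ C]

variable (R : Realisation q K C) (hU : UnitQ C)

/-- The trace as a linear form. -/
noncomputable def trL (hU : UnitQ C) (M : C) : End M →ₗ[ℚ] ℚ where
  toFun f := sc hU (tr (f : M ⟶ M))
  map_add' f g := by rw [tr_add, sc_add]
  map_smul' c f := by
    apply smul_inj hU
    rw [← sc_spec, tr_smul, RingHom.id_apply, smul_eq_mul, mul_smul, ← sc_spec]

/-- The action on the cohomology in all degrees. -/
noncomputable def HA (M : C) : End M →+* ∀ i : degs R M, Module.End K ((R.H i).obj M) :=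
  Pi.ringHom fun i => HE R i M

/-- The supertrace. -/
noncomputable def strL (M : C) : (∀ i : degs R M, Module.End K ((R.H i).obj M)) →ₗ[K] K :=
  ∑ i : degs R M, ((-1 : K) ^ (i : ℤ)) • (LinearMap.trace K _ ∘ₗ LinearMap.proj i)

theorem trL_eq (M : C) (f : End M) : (trL hU M f : K) = strL R M (HA R M f) := by
  have h := lefschetz_sum R f _ (sc_spec hU (tr (f : M ⟶ M))) (degs R M) (Finset.Subset.refl _)
  rw [trL, LinearMap.coe_mk, AddHom.coe_mk, h, strL, LinearMap.sum_apply,
    ← Finset.sum_coe_sort (degs R M)]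
  rfl

include R hU in
theorem end_finite' (hN : NumTrivVanish C) (M : C) : Module.Finite ℚ (End M) := by
  classical
  have hfg : (Submodule.span K (Set.range (HA R M))).FG := IsNoetherian.noetherian _
  rw [Submodule.fg_span_iff_fg_span_finset_subset] at hfg
  obtain ⟨s, hs1, hs2⟩ := hfg
  have hch : ∀ w : s, ∃ a : End M, HA R M a = w := fun w => hs1 w.2
  choose a ha using hch
  let T : End M →ₗ[ℚ] (s → ℚ) := LinearMap.pi fun w => trL hU M ∘ₗ LinearMap.mulLeft ℚ (a w)
  apply Module.Finite.of_injective T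
  rw [← LinearMap.ker_eq_bot, LinearMap.ker_eq_bot']
  intro b hb
  apply hN M M b
  intro g
  let g' : End M := g
  -- the linear form w ↦ str (w * H(b)) vanishes on s
  have h1 : ∀ w ∈ Submodule.span K (Set.range (HA R M)), strL R M (w * HA R M b) = 0 := by
    rw [hs2]
    intro w hw
    induction hw using Submodule.span_induction with
    | mem w hw =>
      have h2 : T b ⟨w, hw⟩ = 0 := by rw [hb]; rfl
      have h3 : trL hU M (a ⟨w, hw⟩ * b) = 0 := h2
      have h4 := trL_eq R hU M (a ⟨w, hw⟩ * b)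
      rw [h3, map_mul, ha, Rat.cast_zero] at h4
      exact h4.symm
    | zero => rw [zero_mul, map_zero]
    | add x y _ _ hx hy => rw [add_mul, map_add, hx, hy, add_zero]
    | smul c x _ hx => rw [smul_mul_assoc, map_smul, hx, smul_zero]
  have h5 := h1 (HA R M g') (Submodule.subset_span ⟨_, rfl⟩)
  rw [← map_mul, ← trL_eq R hU] at h5
  have h6 : trL hU M (g' * b) = 0 := by exact_mod_cast h5
  have h7 : sc hU (tr (b ≫ g)) = 0 := h6
  rw [sc_spec hU (tr (b ≫ g)), h7, zero_smul]

include R hU in
theorem end_semisimple (hN : NumTrivVanish C) (M : C) : IsSemisimpleRing (End M) := by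
  have hfin := end_finite' R hU hN M
  have hart : IsArtinianRing (End M) := IsArtinianRing.of_finite ℚ (End M)
  rw [IsArtinianRing.isSemisimpleRing_iff_jacobson, eq_bot_iff]
  intro a ha
  have hnil : IsNilpotent (Ring.jacobson (End M)) := IsSemiprimaryRing.isNilpotent
  obtain ⟨n, hn⟩ := hnil
  rw [Submodule.mem_bot]
  apply hN M M a
  intro g
  let g' : End M := g
  have h1 : g' * a ∈ Ring.jacobson (End M) := Ideal.mul_mem_left _ _ ha
  have h2 : IsNilpotent (g' * a) := by
    refine ⟨n, ?_⟩
    have h3 := Ideal.pow_mem_pow h1 n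
    rw [hn] at h3
    simpa using h3
  have h4 : trL hU M (g' * a) = 0 := by
    have h5 := trL_eq R hU M (g' * a)
    have h6 : strL R M (HA R M (g' * a)) = 0 := by
      rw [strL, LinearMap.sum_apply]
      refine Finset.sum_eq_zero fun i _ => ?_
      have h7 : IsNilpotent (HE R i M (g' * a)) := h2.map (HE R i M)
      have h8 := LinearMap.isNilpotent_trace_of_isNilpotent h7
      rw [isNilpotent_iff_eq_zero] at h8
      change (-1 : K) ^ (i : ℤ) • LinearMap.trace K _ (HE R i M (g' * a)) = 0
      rw [h8, smul_zero]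
    rw [h6] at h5
    exact_mod_cast h5
  have h7 : sc hU (tr (a ≫ g)) = 0 := h4
  rw [sc_spec hU (tr (a ≫ g)), h7, zero_smul]

include R hU in
theorem exists_regular [HasFiniteProducts C] (hN : NumTrivVanish C) {M N : C} (f : M ⟶ N) :
    ∃ g : N ⟶ M, f ≫ g ≫ f = f := by
  have hfb : HasFiniteBiproducts C := HasFiniteBiproducts.of_hasFiniteProducts
  have hbb : HasBinaryBiproducts C := hasBinaryBiproducts_of_finite_biproducts C
  have := end_semisimple R hU hN (M ⊞ N)
  obtain ⟨b, hb⟩ := regular_of_semisimple (E := End (M ⊞ N))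
    (biprod.fst ≫ f ≫ biprod.inr : M ⊞ N ⟶ M ⊞ N)
  refine ⟨biprod.inr ≫ (b : M ⊞ N ⟶ M ⊞ N) ≫ biprod.fst, ?_⟩
  have h1 : (biprod.fst ≫ f ≫ biprod.inr : M ⊞ N ⟶ M ⊞ N) ≫ (b : M ⊞ N ⟶ M ⊞ N) ≫
      (biprod.fst ≫ f ≫ biprod.inr : M ⊞ N ⟶ M ⊞ N) = biprod.fst ≫ f ≫ biprod.inr := hb
  have h2 := congrArg (fun t => biprod.inl ≫ t ≫ biprod.snd) h1
  simpa using h2

section karoubi

variable {D : Type u} [Category.{v} D] [Preadditive D]

/-- A pseudo-abelian category in which all morphisms are regular is abelian. -/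
theorem isAbelian_of_regular [HasFiniteProducts D] [IsIdempotentComplete D]
    (h : ∀ {M N : D} (f : M ⟶ N), ∃ g : N ⟶ M, f ≫ g ≫ f = f) : IsAbelianCat D := by
  have hk : HasKernels D := by
    refine ⟨fun {X Y} f => ?_⟩
    obtain ⟨g, hg⟩ := h f
    have hid : (𝟙 X - f ≫ g) ≫ (𝟙 X - f ≫ g) = 𝟙 X - f ≫ g := by
      have : (f ≫ g) ≫ (f ≫ g) = f ≫ g := by
        rw [Category.assoc, ← Category.assoc g f g, ← Category.assoc f, hg]
      simp only [Preadditive.sub_comp, Preadditive.comp_sub, Category.id_comp, Category.comp_id,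
        this, sub_self, sub_zero]
    obtain ⟨Z, ι, π, h1, h2⟩ := IsIdempotentComplete.idempotents_split X _ hid
    have hw : ι ≫ f = 0 := by
      have h3 : (𝟙 X - f ≫ g) ≫ f = 0 := by
        rw [Preadditive.sub_comp, Category.id_comp, Category.assoc, hg, sub_self]
      calc ι ≫ f = (ι ≫ π) ≫ ι ≫ f := by rw [h1, Category.id_comp]
        _ = ι ≫ (π ≫ ι) ≫ f := by simp only [Category.assoc]
        _ = 0 := by rw [h2, h3, comp_zero]
    have hm : Mono ι := (SplitMono.mk π h1).mono
    have hlim : IsLimit (KernelFork.ofι ι hw) := KernelFork.IsLimit.ofι' ι hw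
      (fun {A} k hk => ⟨k ≫ π, by
        rw [Category.assoc, h2, Preadditive.comp_sub, Category.comp_id, ← Category.assoc, hk,
          zero_comp, sub_zero]⟩)
    exact ⟨⟨_, hlim⟩⟩
  have hc : HasCokernels D := by
    refine ⟨fun {X Y} f => ?_⟩
    obtain ⟨g, hg⟩ := h f
    have hid : (𝟙 Y - g ≫ f) ≫ (𝟙 Y - g ≫ f) = 𝟙 Y - g ≫ f := by
      have : (g ≫ f) ≫ (g ≫ f) = g ≫ f := by
        rw [Category.assoc, hg]
      simp only [Preadditive.sub_comp, Preadditive.comp_sub, Category.id_comp, Category.comp_id,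
        this, sub_self, sub_zero]
    obtain ⟨Z, ι, π, h1, h2⟩ := IsIdempotentComplete.idempotents_split Y _ hid
    have hw : f ≫ π = 0 := by
      have h3 : f ≫ (𝟙 Y - g ≫ f) = 0 := by
        rw [Preadditive.comp_sub, Category.comp_id, hg, sub_self]
      calc f ≫ π = f ≫ π ≫ (ι ≫ π) := by rw [h1, Category.comp_id]
        _ = (f ≫ (π ≫ ι)) ≫ π := by simp only [Category.assoc]
        _ = 0 := by rw [h2, h3, zero_comp]
    have hm : Epi π := (SplitEpi.mk ι h1).epi
    have hcol : IsColimit (CokernelCofork.ofπ π hw) := CokernelCofork.IsColimit.ofπ' π hw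
      (fun {A} k hk => ⟨ι ≫ k, by
        rw [← Category.assoc, h2, Preadditive.sub_comp, Category.id_comp, Category.assoc, hk,
          comp_zero, sub_zero]⟩)
    exact ⟨⟨_, hcol⟩⟩
  have hnm : IsNormalMonoCategory D := by
    refine ⟨fun {X Y} f hf => ?_⟩
    obtain ⟨g, hg⟩ := h f
    have h1 : f ≫ g = 𝟙 X := by
      rw [← cancel_mono f, Category.assoc, hg, Category.id_comp]
    have hw : f ≫ (𝟙 Y - g ≫ f) = 0 := by
      rw [Preadditive.comp_sub, Category.comp_id, hg, sub_self]
    exact ⟨⟨Y, 𝟙 Y - g ≫ f, hw, KernelFork.IsLimit.ofι' f hw (fun {A} k hk => ⟨k ≫ g, by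
      rw [Preadditive.comp_sub, Category.comp_id, sub_eq_zero] at hk
      rw [Category.assoc]
      exact hk.symm⟩)⟩⟩
  have hne : IsNormalEpiCategory D := by
    refine ⟨fun {X Y} f hf => ?_⟩
    obtain ⟨g, hg⟩ := h f
    have h1 : g ≫ f = 𝟙 Y := by
      rw [← cancel_epi f, hg, Category.comp_id]
    have hw : (𝟙 X - f ≫ g) ≫ f = 0 := by
      rw [Preadditive.sub_comp, Category.id_comp, Category.assoc, hg, sub_self]
    exact ⟨⟨X, 𝟙 X - f ≫ g, hw, CokernelCofork.IsColimit.ofπ' f hw (fun {A} k hk => ⟨g ≫ k, by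
      rw [Preadditive.sub_comp, Category.id_comp, sub_eq_zero, Category.assoc] at hk
      exact hk.symm⟩)⟩⟩
  let inst : Abelian D := { }
  exact ⟨inferInstance, hk, hc, fun f => inferInstance⟩

end karoubi

include hU in
/-- Under the conjecture of Tate the category is abelian if and only if there are no nonzero
numerically trivial morphisms. -/
theorem abelian_iff (hq : 2 ≤ q) [HasFiniteProducts C] [IsIdempotentComplete C]
    (hT : ∀ M : C, StrongTateFor R M) : IsAbelianCat C ↔ NumTrivVanish C := by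
  constructor
  · intro hA
    exact main_strong hq hU R hA hT
  · intro hN
    exact isAbelian_of_regular fun f => exists_regular R hU hN f

end Pool.Agent.V7H2.AB
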