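import Pool.Agent.V7H2.AB.Inv

/-!
The main theorem.
-/

set_option autoImplicit false

open CategoryTheory CategoryTheory.Limits MonoidalCategory

namespace Pool.Agent.V7H2.AB

universe v u

section

variable {q : ℕ} {K : Type} [Field K] [CharZero K] [IsAlgClosed K]
  {C : Type u} [Category.{v} C] [Abelian C] [Linear ℚ C] [MonoidalCategory C]
  [SymmetricCategory C] [RightRigidCategory C] [MonoidalPreadditive C] [MonoidalLinear ℚ C]

variable (R : Realisation q K C) (hU : UnitQ C)

include hU in
theorem main_multiplicative (hq : 2 ≤ q) : ZetaMultiplicative R := by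
  intro S hS i
  have h1 : (R.P S.X₂ i).map (algebraMap ℚ K) =
      (R.P S.X₁ i * R.P S.X₃ i).map (algebraMap ℚ K) := by
    have m1 := (P_monic R S.X₁ i).map (algebraMap ℚ K)
    have m2 := (P_monic R S.X₂ i).map (algebraMap ℚ K)
    have m3 := (P_monic R S.X₃ i).map (algebraMap ℚ K)
    rw [Polynomial.map_mul, (IsAlgClosed.splits _).eq_prod_roots_of_monic m2,
      (IsAlgClosed.splits _).eq_prod_roots_of_monic (m1.mul m3), Polynomial.roots_mul
      (mul_ne_zero m1.ne_zero m3.ne_zero)]
    congr 2
    classical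
    ext l
    rw [Multiset.count_add, Polynomial.count_roots, Polynomial.count_roots,
      Polynomial.count_roots]
    exact mult_add R hU hq S hS i l
  exact Polynomial.map_injective _ (algebraMap ℚ K).injective h1

include hU in
theorem main_nilpotence (hq : 2 ≤ q) : Nilpotence R := by
  rintro M f (h | h)
  · exact nilpotent_of_num R hU hq M f h
  · apply nilpotent_of_H R hU hq
    intro i
    obtain ⟨n, hn⟩ := h i
    refine ⟨n, ?_⟩
    rw [← map_pow]
    change ((R.H i).map (f ^ n : End M)).hom = 0
    rw [hn]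
    rfl

include hU in
theorem main_decomposition (hq : 2 ≤ q) : Decomposition R := by
  intro M
  obtain ⟨e, h1, h2, h3, ⟨I, -, h4⟩, h5⟩ := exists_decomp R hU hq M
  refine ⟨I, e, h1, h2, h3, h4, fun i j => ⟨fun h => ?_, fun h => ?_⟩⟩
  · exact map_eq_of_HE R (by rw [h5, if_pos h])
  · have h6 : HE R j M (e i) = 0 := by rw [h5, if_neg h]
    ext x
    exact LinearMap.congr_fun h6 x

omit [IsAlgClosed K] [MonoidalPreadditive C] [MonoidalLinear ℚ C] in
theorem bij_of_isIso {M N : C} {i : ℤ} (f : M ⟶ N) (h : IsIso ((R.H i).map f)) :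
    Function.Bijective ((R.H i).map f).hom :=
  ConcreteCategory.bijective_of_isIso ((R.H i).map f)

include hU in
theorem main_inverses (hq : 2 ≤ q) : Inverses R := by
  intro M N f
  refine ⟨fun i h => ?_, fun h => ?_⟩
  · exact exists_inverse R hU hq f i (bij_of_isIso R f h)
  · exact isIso_of_H R hU hq f (fun i => bij_of_isIso R f (h i))

include hU in
theorem main_all (hq : 2 ≤ q) : NoSmash C ∧ ZetaMultiplicative R ∧ NoPhantom R ∧ RankBound R ∧
    Nilpotence R ∧ Decomposition R ∧ Inverses R ∧ FiniteLength R ∧ TateHom R ∧ TateNum R :=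
  ⟨fun M f hf => ⟨mono_of_ne_zero hU f hf, tpow_ne_zero hU f hf⟩,
    main_multiplicative R hU hq, isZero_of_H R hU hq,
    fun M => ⟨(hom_finite R hU hq M).1, finrank_hom_le_tate R hU hq M⟩, main_nilpotence R hU hq,
    main_decomposition R hU hq, main_inverses R hU hq, fun M s => length_le R hU hq M s,
    fun M h f hf => tate_hom R hU hq M h f hf, fun M h => tate_num R hU hq M h⟩

end

/-- The abelian structure. -/
@[reducible]
noncomputable def abelianOf {C : Type u} [Category.{v} C] [Preadditive C] (h : IsAbelianCat C) :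
    Abelian C :=
  haveI := h.1
  haveI := h.2.choose
  haveI := h.2.choose_spec.choose
  haveI : ∀ {X Y : C} (f : X ⟶ Y), IsIso (Abelian.coimageImageComparison f) :=
    h.2.choose_spec.choose_spec
  Abelian.ofCoimageImageComparisonIsIso

theorem main {q : ℕ} (hq : 2 ≤ q) {K : Type} [Field K] [CharZero K] [IsAlgClosed K]
    {C : Type u} [Category.{v} C] [Preadditive C] [Linear ℚ C] [MonoidalCategory C]
    [SymmetricCategory C] [RightRigidCategory C] [MonoidalPreadditive C] [MonoidalLinear ℚ C]
    (hU : UnitQ C) (R : Realisation q K C) (hA : IsAbelianCat C) :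
    NoSmash C ∧ ZetaMultiplicative R ∧ NoPhantom R ∧ RankBound R ∧ Nilpotence R ∧
    Decomposition R ∧ Inverses R ∧ FiniteLength R ∧ TateHom R ∧ TateNum R := by
  letI := abelianOf hA
  exact main_all (C := C) R hU hq

theorem main_strong {q : ℕ} (hq : 2 ≤ q) {K : Type} [Field K] [CharZero K] [IsAlgClosed K]
    {C : Type u} [Category.{v} C] [Preadditive C] [Linear ℚ C] [MonoidalCategory C]
    [SymmetricCategory C] [RightRigidCategory C] [MonoidalPreadditive C] [MonoidalLinear ℚ C]
    (hU : UnitQ C) (R : Realisation q K C) (hA : IsAbelianCat C)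
    (hT : ∀ M : C, StrongTateFor R M) : NumTrivVanish C := by
  letI := abelianOf hA
  exact tate_num_all (C := C) R hU hq hT

end Pool.Agent.V7H2.AB
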