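import Pool.Agent.V7H2.AB.Hom

/-!
Nilpotence, weight decompositions, algebraicity of inverses.
-/

set_option autoImplicit false

open CategoryTheory CategoryTheory.Limits MonoidalCategory Polynomial

namespace Pool.Agent.V7H2.AB

universe v u

section algebra

variable {A : Type*} [Ring A] [Algebra ℚ A]

/-- An element of a finite-dimensional algebra which is not nilpotent has a nonzero idempotent
multiple which is a polynomial in the element. -/
theorem exists_idem [Module.Finite ℚ A] (a : A) (ha : ¬ IsNilpotent a) :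
    ∃ g : ℚ[X], aeval a (g * X) * aeval a (g * X) = aeval a (g * X) ∧ aeval a (g * X) ≠ 0 := by
  have hint : IsIntegral ℚ a := Algebra.IsIntegral.isIntegral a
  have hm0 : minpoly ℚ a ≠ 0 := minpoly.ne_zero hint
  obtain ⟨h, hh, hnd⟩ := Polynomial.exists_eq_pow_rootMultiplicity_mul_and_not_dvd (minpoly ℚ a)
    hm0 0
  set k := (minpoly ℚ a).rootMultiplicity 0 with hk
  rw [C_0, sub_zero] at hh hnd
  have hcop : IsCoprime (X ^ (k + 1) : ℚ[X]) h := by
    apply IsCoprime.pow_left
    exact (Irreducible.coprime_iff_not_dvd irreducible_X).2 hnd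
  obtain ⟨u, v, huv⟩ := hcop
  refine ⟨u * X ^ k, ?_, ?_⟩
  · have e : (u * X ^ k * X) = u * X ^ (k + 1) := by ring
    rw [e]
    have h1 : aeval a (u * X ^ (k + 1) * (v * h)) = 0 := by
      have : u * X ^ (k + 1) * (v * h) = (u * v * X) * minpoly ℚ a := by
        rw [hh]
        ring
      rw [this, map_mul, minpoly.aeval, mul_zero]
    have h2 : v * h = 1 - u * X ^ (k + 1) := by
      rw [← huv]
      ring
    rw [h2, mul_sub, mul_one, map_sub, sub_eq_zero] at h1
    rw [← map_mul]
    exact h1.symm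
  · intro h0
    apply ha
    refine ⟨k, ?_⟩
    have e : (u * X ^ k * X) = u * X ^ (k + 1) := by ring
    rw [e] at h0
    have h1 : aeval a (X ^ k * (u * X ^ (k + 1) + v * h)) = 0 := by
      have : X ^ k * (u * X ^ (k + 1) + v * h) = X ^ k * (u * X ^ (k + 1)) + v * minpoly ℚ a := by
        rw [hh]
        ring
      rw [this, map_add, map_mul, h0, map_mul, minpoly.aeval]
      simp
    rw [huv, mul_one] at h1
    simpa using h1

end algebra

variable {q : ℕ} {K : Type} [Field K] [CharZero K] [IsAlgClosed K]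
  {C : Type u} [Category.{v} C] [Abelian C] [Linear ℚ C] [MonoidalCategory C]
  [SymmetricCategory C] [RightRigidCategory C] [MonoidalPreadditive C] [MonoidalLinear ℚ C]

variable (R : Realisation q K C) (hU : UnitQ C)

/-- The name of an endomorphism. -/
def nameL (M N : C) : (M ⟶ N) →ₗ[ℚ] (𝟙_ C ⟶ N ⊗ Mᘁ) where
  toFun f := η_ M Mᘁ ≫ f ▷ Mᘁ
  map_add' f g := by rw [MonoidalPreadditive.add_whiskerRight, Preadditive.comp_add]
  map_smul' c f := by
    rw [MonoidalLinear.smul_whiskerRight, Linear.comp_smul]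
    rfl

omit [IsAlgClosed K] in
theorem nameL_inj (M N : C) : Function.Injective (nameL (C := C) M N) := by
  intro f g h
  have h1 : tensorRightHomEquiv (𝟙_ C) M Mᘁ N ((λ_ M).hom ≫ f) =
      tensorRightHomEquiv (𝟙_ C) M Mᘁ N ((λ_ M).hom ≫ g) := by
    have h2 : ∀ f : M ⟶ N, tensorRightHomEquiv (𝟙_ C) M Mᘁ N ((λ_ M).hom ≫ f) =
        η_ M Mᘁ ≫ f ▷ Mᘁ := by
      intro f
      simp [tensorRightHomEquiv, unitors_equal]
    rw [h2, h2]
    exact h
  have h3 := (tensorRightHomEquiv (𝟙_ C) M Mᘁ N).injective h1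
  exact (cancel_epi _).1 h3

include R hU in
theorem end_finite (hq : 2 ≤ q) (M : C) : Module.Finite ℚ (End M) := by
  have h := (hom_finite R hU hq (M ⊗ Mᘁ)).1
  exact Module.Finite.of_injective (nameL (C := C) M M) (nameL_inj M M)

omit [IsAlgClosed K] [MonoidalPreadditive C] [MonoidalLinear ℚ C] in
theorem HE_aeval (i : ℤ) (M : C) (a : End M) (g : ℚ[X]) :
    HE R i M (aeval a g) = aeval (HE R i M a) (g.map (algebraMap ℚ K)) :=
  Polynomial.map_aeval_eq_aeval_map (S := End M) (T := K)
    (U := Module.End K ((R.H i).obj M)) (φ := algebraMap ℚ K) (ψ := HE R i M)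
    (Subsingleton.elim _ _) g a

omit [IsAlgClosed K] [MonoidalPreadditive C] [MonoidalLinear ℚ C] in
theorem subsingleton_of_split {M Y : C} (e : End M) (i : Y ⟶ M) (p : M ⟶ Y) (h1 : i ≫ p = 𝟙 Y)
    (h2 : p ≫ i = (e : M ⟶ M)) (j : ℤ) (h : HE R j M e = 0) : Subsingleton ((R.H j).obj Y) := by
  have h3 : (R.H j).map (e : M ⟶ M) = 0 := by
    ext x
    exact LinearMap.congr_fun h x
  have h4 : 𝟙 ((R.H j).obj Y) = 0 := by
    have : 𝟙 Y = i ≫ (p ≫ i) ≫ p := by
      rw [Category.assoc, ← Category.assoc i p, h1, Category.id_comp]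
    rw [← (R.H j).map_id, this, h2, (R.H j).map_comp, (R.H j).map_comp, h3, Limits.zero_comp,
      Limits.comp_zero]
  refine ⟨fun x y => ?_⟩
  have h5 := congrArg (fun t => t.hom (x - y)) h4
  have h6 : x - y = 0 := h5
  exact sub_eq_zero.1 h6

include hU in
/-- An endomorphism is nilpotent if it is nilpotent on the cohomology. -/
theorem nilpotent_of_H (hq : 2 ≤ q) (M : C) (a : End M) (h : ∀ i, IsNilpotent (HE R i M a)) :
    IsNilpotent a := by
  have hfin := end_finite R hU hq M
  by_contra hne
  obtain ⟨g, hg1, hg2⟩ := exists_idem a hne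
  obtain ⟨Y, i, p, h1, h2⟩ := IsIdempotentComplete.idempotents_split M (aeval a (g * X)) hg1
  have h3 : ∀ j, HE R j M (aeval a (g * X)) = 0 := by
    intro j
    have h4 : IsNilpotent (HE R j M (aeval a (g * X))) := by
      rw [HE_aeval, Polynomial.map_mul, map_X, map_mul, aeval_X]
      refine Commute.isNilpotent_mul_left ?_ (h j)
      have h8 : Commute (aeval (HE R j M a) (g.map (algebraMap ℚ K))) (aeval (HE R j M a) X) :=
        (Commute.all (g.map (algebraMap ℚ K)) X).map (aeval (HE R j M a))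
      rwa [aeval_X] at h8
    have h5 : HE R j M (aeval a (g * X)) * HE R j M (aeval a (g * X)) =
        HE R j M (aeval a (g * X)) := by rw [← map_mul, hg1]
    obtain ⟨n, hn⟩ := h4
    have h6 : IsIdempotentElem (HE R j M (aeval a (g * X))) := h5
    rcases Nat.eq_zero_or_pos n with rfl | hpos
    · rw [pow_zero] at hn
      have : Subsingleton (Module.End K ((R.H j).obj M)) := subsingleton_of_zero_eq_one hn.symm
      exact Subsingleton.elim _ _
    · rw [← h6.pow_eq (n := n) hpos.ne']
      exact hn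
  have hY : IsZero Y := isZero_of_H R hU hq Y fun j => subsingleton_of_split R _ i p h1 h2 j (h3 j)
  apply hg2
  have h7 : (aeval a (g * X) : End M) = p ≫ i := h2.symm
  rw [h7, hY.eq_zero_of_src i, Limits.comp_zero]

include hU in
theorem isZero_of_traces (hq : 2 ≤ q) (Y : C)
    (h : ∀ n : ℕ, tr (Fr R Y ^ n : End Y) = 0) : IsZero Y := by
  classical
  have h1 : ∀ n : ℕ, sc hU (tr (Fr R Y ^ n : End Y)) = 0 := by
    intro n
    apply smul_inj hU
    rw [← sc_spec, h n, zero_smul]
  apply isZero_of_H R hU hq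
  intro i
  have h2 : ∀ l : K, mult R Y i l = 0 := by
    intro l
    by_contra hne
    have h3 := alt_mult R hU Y 0 h1 l (insert i (degs R Y)) (Finset.subset_insert _ _)
    rw [Finset.sum_eq_single i] at h3
    · rw [Rat.cast_zero, ite_self] at h3
      have h4 : ((-1 : K)) ^ i ≠ 0 := zpow_ne_zero _ (by simp)
      have h5 := (mul_eq_zero.1 h3).resolve_left h4
      exact hne (by exact_mod_cast h5)
    · intro j _ hj
      have : mult R Y j l = 0 := by
        by_contra hc
        exact hj (mult_weight R hq hc hne)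
      rw [this]
      simp
    · intro hc
      exact absurd (Finset.mem_insert_self _ _) hc
  have h6 := finrank_eq R Y i ∅ (fun l hl => absurd (h2 l) hl)
  rw [Finset.sum_empty] at h6
  exact (Module.finrank_zero_iff (R := K)).1 h6

include R hU in
/-- Numerically trivial endomorphisms are nilpotent. -/
theorem nilpotent_of_num (hq : 2 ≤ q) (M : C) (a : End M)
    (h : ∀ b : M ⟶ M, tr ((a : M ⟶ M) ≫ b) = 0) : IsNilpotent a := by
  have hfin := end_finite R hU hq M
  by_contra hne
  obtain ⟨g, hg1, hg2⟩ := exists_idem a hne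
  obtain ⟨Y, i, p, h1, h2⟩ := IsIdempotentComplete.idempotents_split M (aeval a (g * X)) hg1
  have hY : IsZero Y := by
    apply isZero_of_traces R hU hq
    intro n
    have e1 : (Fr R Y ^ n : End Y) = i ≫ (p ≫ (Fr R Y ^ n : End Y)) := by
      rw [← Category.assoc, h1, Category.id_comp]
    rw [e1, tr_comm, Fr_pow_comm, Category.assoc, h2, tr_comm]
    have e2 : (aeval a (g * X) : End M) = (a : M ⟶ M) ≫ (aeval a g : End M) := by
      rw [map_mul, aeval_X, End.mul_def]
    rw [e2, Category.assoc]
    exact h _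
  apply hg2
  have h7 : (aeval a (g * X) : End M) = p ≫ i := h2.symm
  rw [h7, hY.eq_zero_of_src i, Limits.comp_zero]

end Pool.Agent.V7H2.AB
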