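import Pool.Agent.V7H2.AB.Unit
import Pool.Agent.N181.Mod.LinA

/-!
Multiplicities of the Frobenius eigenvalues are additive on short exact sequences.
-/

set_option autoImplicit false

open CategoryTheory CategoryTheory.Limits MonoidalCategory Polynomial

namespace Pool.Agent.V7H2.AB

universe v u

section la

variable {K : Type*} [Field K]

theorem pow_indep (Λ : Finset K) (c : K → K) (h : ∀ n : ℕ, ∑ l ∈ Λ, c l * l ^ n = 0) :
    ∀ l ∈ Λ, c l = 0 := by
  have h1 := linearIndependent_monoidHom (Multiplicative ℕ) K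
  have hinj : Function.Injective (fun l : K => powersHom K l) := (powersHom K).injective
  have h2 := h1.comp _ hinj
  rw [linearIndependent_iff'] at h2
  refine h2 Λ c ?_
  funext n
  have h3 := h (Multiplicative.toAdd n)
  rw [Finset.sum_apply]
  simpa [powersHom_apply, smul_eq_mul] using h3

variable [IsAlgClosed K] [CharZero K] {V : Type*} [AddCommGroup V] [Module K V]
  [FiniteDimensional K V]

theorem trace_pow_sum (T : Module.End K V) (Λ : Finset K)
    (hΛ : ∀ l, T.charpoly.rootMultiplicity l ≠ 0 → l ∈ Λ) (n : ℕ) :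
    LinearMap.trace K V (T ^ n) = ∑ l ∈ Λ, (T.charpoly.rootMultiplicity l : K) * l ^ n := by
  classical
  rw [Pool.Agent.N181.Mod.trace_pow_eq, Finset.sum_multiset_map_count]
  have hs : T.charpoly.roots.toFinset ⊆ Λ := by
    intro l hl
    rw [Multiset.mem_toFinset] at hl
    apply hΛ
    rw [← count_roots]
    exact (Multiset.count_pos.2 hl).ne'
  rw [Finset.sum_subset hs]
  · refine Finset.sum_congr rfl fun l _ => ?_
    rw [count_roots, nsmul_eq_mul]
  · intro l _ hl
    rw [Multiset.mem_toFinset] at hl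
    rw [Multiset.count_eq_zero_of_notMem hl, zero_smul]

end la

section real

variable {q : ℕ} {K : Type} [Field K] [CharZero K]
  {C : Type u} [Category.{v} C] [Preadditive C] [Linear ℚ C] [MonoidalCategory C]
  [SymmetricCategory C] [RightRigidCategory C]

variable (R : Realisation q K C)

instance (i : ℤ) (M : C) : FiniteDimensional K ((R.H i).obj M) := R.finite i M

instance (i : ℤ) : (R.H i).Additive := R.additive i

/-- The action on the cohomology. -/
noncomputable def HE (i : ℤ) (M : C) : End M →+* Module.End K ((R.H i).obj M) where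
  toFun f := ((R.H i).map f).hom
  map_one' := by
    rw [End.one_def, (R.H i).map_id]
    rfl
  map_mul' f g := by
    rw [End.mul_def, (R.H i).map_comp]
    rfl
  map_zero' := by
    change ((R.H i).map (0 : M ⟶ M)).hom = 0
    rw [(R.H i).map_zero]
    rfl
  map_add' f g := by
    change ((R.H i).map ((f : M ⟶ M) + g)).hom = _
    rw [(R.H i).map_add]
    rfl

/-- The Frobenius as an element of the endomorphism ring. -/
def Fr (M : C) : End M := R.frob M

/-- The multiplicity of an eigenvalue. -/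
noncomputable def mult (M : C) (i : ℤ) (l : K) : ℕ :=
  ((R.P M i).map (algebraMap ℚ K)).rootMultiplicity l

theorem charpoly_HE (M : C) (i : ℤ) :
    (HE R i M (Fr R M)).charpoly = (R.P M i).map (algebraMap ℚ K) := R.charpoly_eq M i

theorem P_monic (M : C) (i : ℤ) : (R.P M i).Monic := by
  have h := LinearMap.charpoly_monic (HE R i M (Fr R M))
  rw [charpoly_HE] at h
  exact (Polynomial.monic_map_iff).1 h

theorem mult_ne_zero_iff (M : C) (i : ℤ) (l : K) :
    mult R M i l ≠ 0 ↔ aeval l (R.P M i) = 0 := by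
  unfold mult
  have h0 : (R.P M i).map (algebraMap ℚ K) ≠ 0 := ((P_monic R M i).map _).ne_zero
  rw [← Nat.pos_iff_ne_zero, Polynomial.rootMultiplicity_pos h0, IsRoot.def, eval_map_algebraMap]

theorem mult_weight (hq : 2 ≤ q) {M N : C} {i j : ℤ} {l : K} (h1 : mult R M i l ≠ 0)
    (h2 : mult R N j l ≠ 0) : i = j := by
  rw [mult_ne_zero_iff] at h1 h2
  have hint : IsIntegral ℚ l := ⟨R.P M i, P_monic R M i, h1⟩
  have hd1 := minpoly.dvd ℚ l h1
  have hd2 := minpoly.dvd ℚ l h2
  obtain ⟨z, hz⟩ := IsAlgClosed.exists_aeval_eq_zero ℂ (minpoly ℚ l)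
    (minpoly.degree_pos hint).ne'
  have hz1 := R.weight M i z (by
    obtain ⟨g, hg⟩ := hd1
    rw [hg, map_mul, hz, zero_mul])
  have hz2 := R.weight N j z (by
    obtain ⟨g, hg⟩ := hd2
    rw [hg, map_mul, hz, zero_mul])
  have hq' : (1 : ℝ) < q := by exact_mod_cast (by omega : 1 < q)
  exact zpow_right_injective₀ (by linarith) hq'.ne' (hz1.symm.trans hz2)

/-- The finite set of the degrees. -/
noncomputable def degs (M : C) : Finset ℤ := (R.bounded M).toFinset

theorem subsingleton_of_notMem {M : C} {i : ℤ} (h : i ∉ degs R M) :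
    Subsingleton ((R.H i).obj M) := by
  rw [degs, Set.Finite.mem_toFinset, Set.mem_setOf_eq, not_nontrivial_iff_subsingleton] at h
  exact h

theorem mult_zero_of_subsingleton {M : C} {i : ℤ} (hs : Subsingleton ((R.H i).obj M)) (l : K) :
    mult R M i l = 0 := by
  have h1 : (HE R i M (Fr R M)).charpoly = 1 := by
    have h2 := LinearMap.charpoly_monic (HE R i M (Fr R M))
    have h3 := LinearMap.charpoly_natDegree (HE R i M (Fr R M))
    rw [Module.finrank_zero_of_subsingleton] at h3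
    exact (Polynomial.Monic.natDegree_eq_zero h2).1 h3
  rw [mult, ← charpoly_HE, h1]
  simp

theorem mult_zero_of_notMem {M : C} {i : ℤ} (h : i ∉ degs R M) (l : K) : mult R M i l = 0 :=
  mult_zero_of_subsingleton R (subsingleton_of_notMem R h) l

theorem lefschetz_sum {M : C} (f : End M) (c : ℚ) (hc : tr (f : M ⟶ M) = c • 𝟙 (𝟙_ C))
    (I : Finset ℤ) (hI : degs R M ⊆ I) :
    (c : K) = ∑ i ∈ I, (-1) ^ i * LinearMap.trace K _ (HE R i M f) := by
  rw [R.lefschetz M f c hc]
  refine finsum_eq_sum_of_support_subset _ ?_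
  intro i hi
  by_contra h
  apply hi
  have hs := subsingleton_of_notMem R (fun h' => h (hI h'))
  have : ((R.H i).map (f : M ⟶ M)).hom = 0 := Subsingleton.elim _ _
  change (-1) ^ i * LinearMap.trace K _ ((R.H i).map (f : M ⟶ M)).hom = 0
  rw [this, map_zero, mul_zero]

variable [IsAlgClosed K]

theorem trace_Fr (M : C) (i : ℤ) (n : ℕ) (Λ : Finset K) (hΛ : ∀ l, mult R M i l ≠ 0 → l ∈ Λ) :
    LinearMap.trace K _ (HE R i M (Fr R M ^ n)) = ∑ l ∈ Λ, (mult R M i l : K) * l ^ n := by
  rw [map_pow, trace_pow_sum (HE R i M (Fr R M)) Λ]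
  · rw [charpoly_HE]
    rfl
  · intro l hl
    apply hΛ
    rwa [charpoly_HE] at hl

open Classical in
/-- The roots of the characteristic polynomials of the Frobenius. -/
noncomputable def eig (M : C) (i : ℤ) : Finset K :=
  ((R.P M i).map (algebraMap ℚ K)).roots.toFinset

open Classical in
theorem mem_eig {M : C} {i : ℤ} {l : K} (h : mult R M i l ≠ 0) : l ∈ eig R M i := by
  rw [eig, Multiset.mem_toFinset, ← Multiset.count_pos, count_roots]
  exact Nat.pos_of_ne_zero h

theorem finrank_eq (M : C) (i : ℤ) (Λ : Finset K) (hΛ : ∀ l, mult R M i l ≠ 0 → l ∈ Λ) :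
    Module.finrank K ((R.H i).obj M) = ∑ l ∈ Λ, mult R M i l := by
  have h := trace_Fr R M i 0 Λ hΛ
  rw [pow_zero, map_one, LinearMap.trace_one] at h
  simp only [pow_zero, mul_one] at h
  exact_mod_cast h

variable (hU : UnitQ C)

/-- The rational number of an endomorphism of the unit. -/
noncomputable def sc (hU : UnitQ C) (f : 𝟙_ C ⟶ 𝟙_ C) : ℚ := (hU.1 f).choose

omit [SymmetricCategory C] [RightRigidCategory C] in
theorem sc_spec (f : 𝟙_ C ⟶ 𝟙_ C) : f = sc hU f • 𝟙 (𝟙_ C) := (hU.1 f).choose_spec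

include hU in
omit [SymmetricCategory C] [RightRigidCategory C] in
theorem smul_inj {a b : ℚ} (h : a • 𝟙 (𝟙_ C) = b • 𝟙 (𝟙_ C)) : a = b := by
  by_contra hne
  have h1 : (a - b) • 𝟙 (𝟙_ C) = 0 := by rw [sub_smul, h, sub_self]
  apply hU.2
  have h2 := congrArg (fun t => (a - b)⁻¹ • t) h1
  simpa [smul_smul, inv_mul_cancel₀ (sub_ne_zero.2 hne)] using h2

omit [SymmetricCategory C] [RightRigidCategory C] in
theorem sc_add (f g : 𝟙_ C ⟶ 𝟙_ C) : sc hU (f + g) = sc hU f + sc hU g := by
  apply smul_inj hU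
  rw [← sc_spec, add_smul, ← sc_spec, ← sc_spec]

theorem sc_tr_pow (M : C) (n : ℕ) (I : Finset ℤ) (hI : degs R M ⊆ I) (Λ : Finset K)
    (hΛ : ∀ i ∈ I, ∀ l, mult R M i l ≠ 0 → l ∈ Λ) :
    (sc hU (tr (Fr R M ^ n : End M)) : K) =
      ∑ l ∈ Λ, (∑ i ∈ I, (-1) ^ i * (mult R M i l : K)) * l ^ n := by
  rw [lefschetz_sum R (Fr R M ^ n) _ (sc_spec hU _) I hI]
  rw [Finset.sum_congr rfl fun i hi => by rw [trace_Fr R M i n Λ (hΛ i hi)]]
  simp only [Finset.mul_sum, Finset.sum_mul]
  rw [Finset.sum_comm]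
  refine Finset.sum_congr rfl fun l _ => Finset.sum_congr rfl fun i _ => by ring

omit [IsAlgClosed K] in
theorem Fr_pow_comm {M N : C} (f : M ⟶ N) (n : ℕ) :
    f ≫ (Fr R N ^ n : End N) = (Fr R M ^ n : End M) ≫ f := by
  induction n with
  | zero => simp [End.one_def]
  | succ n ih =>
    have e1 : (Fr R N ^ (n + 1) : End N) = R.frob N ≫ (Fr R N ^ n : End N) := by
      rw [pow_succ, End.mul_def]
      rfl
    have e2 : (Fr R M ^ (n + 1) : End M) = R.frob M ≫ (Fr R M ^ n : End M) := by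
      rw [pow_succ, End.mul_def]
      rfl
    rw [e1, e2, ← Category.assoc, R.frob_comm, Category.assoc, ih, Category.assoc]

end real

section real2

variable {q : ℕ} {K : Type} [Field K] [CharZero K] [IsAlgClosed K]
  {C : Type u} [Category.{v} C] [Abelian C] [Linear ℚ C] [MonoidalCategory C]
  [SymmetricCategory C] [RightRigidCategory C] [MonoidalPreadditive C] [MonoidalLinear ℚ C]

variable (R : Realisation q K C) (hU : UnitQ C)

open Classical in
include hU in
/-- The multiplicities are additive on short exact sequences. -/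
theorem mult_add (hq : 2 ≤ q) (S : ShortComplex C) (hS : S.ShortExact) (i : ℤ) (l : K) :
    mult R S.X₂ i l = mult R S.X₁ i l + mult R S.X₃ i l := by
  set I : Finset ℤ := insert i (degs R S.X₁ ∪ degs R S.X₂ ∪ degs R S.X₃) with hI
  set Λ : Finset K := insert l (I.biUnion fun j => eig R S.X₁ j ∪ eig R S.X₂ j ∪ eig R S.X₃ j)
    with hΛ
  have hI1 : degs R S.X₁ ⊆ I := fun x hx => by simp [hI, hx]
  have hI2 : degs R S.X₂ ⊆ I := fun x hx => by simp [hI, hx]
  have hI3 : degs R S.X₃ ⊆ I := fun x hx => by simp [hI, hx]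
  have hL1 : ∀ j ∈ I, ∀ l, mult R S.X₁ j l ≠ 0 → l ∈ Λ := fun j hj l hl => by
    rw [hΛ, Finset.mem_insert, Finset.mem_biUnion]
    exact Or.inr ⟨j, hj, by simp [mem_eig R hl]⟩
  have hL2 : ∀ j ∈ I, ∀ l, mult R S.X₂ j l ≠ 0 → l ∈ Λ := fun j hj l hl => by
    rw [hΛ, Finset.mem_insert, Finset.mem_biUnion]
    exact Or.inr ⟨j, hj, by simp [mem_eig R hl]⟩
  have hL3 : ∀ j ∈ I, ∀ l, mult R S.X₃ j l ≠ 0 → l ∈ Λ := fun j hj l hl => by
    rw [hΛ, Finset.mem_insert, Finset.mem_biUnion]
    exact Or.inr ⟨j, hj, by simp [mem_eig R hl]⟩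
  have key : ∀ n : ℕ, ∑ m ∈ Λ, (∑ j ∈ I, (-1 : K) ^ j *
      ((mult R S.X₂ j m : K) - mult R S.X₁ j m - mult R S.X₃ j m)) * m ^ n = 0 := by
    intro n
    have h1 := sc_tr_pow R hU S.X₁ n I hI1 Λ hL1
    have h2 := sc_tr_pow R hU S.X₂ n I hI2 Λ hL2
    have h3 := sc_tr_pow R hU S.X₃ n I hI3 Λ hL3
    have h4 := tr_exact S hS (Fr R S.X₁ ^ n : End S.X₁) (Fr R S.X₂ ^ n : End S.X₂)
      (Fr R S.X₃ ^ n : End S.X₃) (Fr_pow_comm R S.f n) (Fr_pow_comm R S.g n).symm
    have h5 := congrArg (fun t => (sc hU t : K)) h4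
    simp only [sc_add, Rat.cast_add] at h5
    rw [h1, h2, h3] at h5
    have h6 : ∀ m ∈ Λ, (∑ j ∈ I, (-1 : K) ^ j *
        ((mult R S.X₂ j m : K) - mult R S.X₁ j m - mult R S.X₃ j m)) * m ^ n =
        (∑ j ∈ I, (-1) ^ j * (mult R S.X₂ j m : K)) * m ^ n -
        (∑ j ∈ I, (-1) ^ j * (mult R S.X₁ j m : K)) * m ^ n -
        (∑ j ∈ I, (-1) ^ j * (mult R S.X₃ j m : K)) * m ^ n := by
      intro m _
      rw [← sub_mul, ← sub_mul, ← Finset.sum_sub_distrib, ← Finset.sum_sub_distrib]
      congr 1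
      refine Finset.sum_congr rfl fun j _ => by ring
    rw [Finset.sum_congr rfl h6, Finset.sum_sub_distrib, Finset.sum_sub_distrib, h5]
    ring
  have h0 := pow_indep Λ _ key l (by simp [hΛ])
  by_cases hz : mult R S.X₁ i l = 0 ∧ mult R S.X₂ i l = 0 ∧ mult R S.X₃ i l = 0
  · rw [hz.1, hz.2.1, hz.2.2]
  have hne : ∀ j, j ≠ i → mult R S.X₁ j l = 0 ∧ mult R S.X₂ j l = 0 ∧ mult R S.X₃ j l = 0 := by
    intro j hj
    by_contra hc
    apply hj
    have A : ∃ N : C, mult R N i l ≠ 0 := by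
      by_contra hN
      push Not at hN
      exact hz ⟨hN _, hN _, hN _⟩
    have B : ∃ N : C, mult R N j l ≠ 0 := by
      by_contra hN
      push Not at hN
      exact hc ⟨hN _, hN _, hN _⟩
    obtain ⟨N, hN⟩ := A
    obtain ⟨N', hN'⟩ := B
    exact mult_weight R hq hN' hN
  rw [Finset.sum_eq_single i] at h0
  · have h1 : ((-1 : K)) ^ i ≠ 0 := zpow_ne_zero _ (by simp)
    have h2 := (mul_eq_zero.1 h0).resolve_left h1
    have h3 : (mult R S.X₂ i l : K) = mult R S.X₁ i l + mult R S.X₃ i l := by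
      linear_combination h2
    exact_mod_cast h3
  · intro j _ hj
    obtain ⟨a, b, c⟩ := hne j hj
    rw [a, b, c]
    simp
  · intro h
    exact absurd (Finset.mem_insert_self _ _) h

open Classical in
include hU in
/-- The dimensions of the cohomology are additive on short exact sequences. -/
theorem dim_add (hq : 2 ≤ q) (S : ShortComplex C) (hS : S.ShortExact) (i : ℤ) :
    Module.finrank K ((R.H i).obj S.X₂) =
      Module.finrank K ((R.H i).obj S.X₁) + Module.finrank K ((R.H i).obj S.X₃) := by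
  rw [finrank_eq R S.X₁ i (eig R S.X₁ i ∪ eig R S.X₂ i ∪ eig R S.X₃ i)
      (fun l hl => by simp [mem_eig R hl]),
    finrank_eq R S.X₂ i (eig R S.X₁ i ∪ eig R S.X₂ i ∪ eig R S.X₃ i)
      (fun l hl => by simp [mem_eig R hl]),
    finrank_eq R S.X₃ i (eig R S.X₁ i ∪ eig R S.X₂ i ∪ eig R S.X₃ i)
      (fun l hl => by simp [mem_eig R hl]), ← Finset.sum_add_distrib]
  exact Finset.sum_congr rfl fun l _ => mult_add R hU hq S hS i l

end real2

end Pool.Agent.V7H2.AB
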