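import Pool.Agent.V7H2.AB.Defs

/-!
Traces in rigid symmetric monoidal abelian categories: cyclicity and additivity on short exact
sequences.
-/

set_option autoImplicit false

open CategoryTheory CategoryTheory.Limits MonoidalCategory

namespace Pool.Agent.V7H2.AB

universe v u

section braided

variable {C : Type u} [Category.{v} C] [MonoidalCategory C] [BraidedCategory C]
  [RightRigidCategory C]

theorem tr_comm {X Y : C} (f : X ⟶ Y) (g : Y ⟶ X) : tr (f ≫ g) = tr (g ≫ f) := by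
  unfold tr
  calc η_ X Xᘁ ≫ (f ≫ g) ▷ Xᘁ ≫ (β_ X Xᘁ).hom ≫ ε_ X Xᘁ
      = (η_ X Xᘁ ≫ f ▷ Xᘁ) ≫ g ▷ Xᘁ ≫ (β_ X Xᘁ).hom ≫ ε_ X Xᘁ := by
        simp only [comp_whiskerRight, Category.assoc]
    _ = (η_ Y Yᘁ ≫ Y ◁ fᘁ) ≫ g ▷ Xᘁ ≫ (β_ X Xᘁ).hom ≫ ε_ X Xᘁ := by
        rw [coevaluation_comp_rightAdjointMate]
    _ = η_ Y Yᘁ ≫ g ▷ Yᘁ ≫ (X ◁ fᘁ ≫ (β_ X Xᘁ).hom) ≫ ε_ X Xᘁ := by
        simp only [Category.assoc]
        rw [whisker_exchange_assoc]
    _ = η_ Y Yᘁ ≫ g ▷ Yᘁ ≫ (β_ X Yᘁ).hom ≫ (fᘁ ▷ X ≫ ε_ X Xᘁ) := by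
        rw [BraidedCategory.braiding_naturality_right]
        simp only [Category.assoc]
    _ = η_ Y Yᘁ ≫ g ▷ Yᘁ ≫ ((β_ X Yᘁ).hom ≫ Yᘁ ◁ f) ≫ ε_ Y Yᘁ := by
        rw [rightAdjointMate_comp_evaluation]
        simp only [Category.assoc]
    _ = η_ Y Yᘁ ≫ g ▷ Yᘁ ≫ (f ▷ Yᘁ ≫ (β_ Y Yᘁ).hom) ≫ ε_ Y Yᘁ := by
        rw [BraidedCategory.braiding_naturality_left]
    _ = _ := by simp only [comp_whiskerRight, Category.assoc]

end braided

section preadditive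

variable {C : Type u} [Category.{v} C] [Preadditive C] [MonoidalCategory C] [SymmetricCategory C]
  [RightRigidCategory C] [MonoidalPreadditive C]

theorem tr_add {X : C} (f g : X ⟶ X) : tr (f + g) = tr f + tr g := by
  simp only [tr, MonoidalPreadditive.add_whiskerRight, Preadditive.add_comp,
    Preadditive.comp_add]

theorem tr_zero {X : C} : tr (0 : X ⟶ X) = 0 := by
  simp only [tr, MonoidalPreadditive.zero_whiskerRight, zero_comp, comp_zero]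

variable [Linear ℚ C] [MonoidalLinear ℚ C]

theorem tr_smul {X : C} (c : ℚ) (f : X ⟶ X) : tr (c • f) = c • tr f := by
  simp only [tr, MonoidalLinear.smul_whiskerRight, Linear.smul_comp, Linear.comp_smul]

end preadditive

section abelian

variable {C : Type u} [Category.{v} C] [Abelian C] [MonoidalCategory C] [SymmetricCategory C]
  [RightRigidCategory C] [MonoidalPreadditive C]

noncomputable def adjL (X : C) : tensorRight X ⊣ tensorRight Xᘁ := tensorRightAdjunction X Xᘁ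

noncomputable def adjR (X : C) : tensorRight Xᘁ ⊣ tensorRight X :=
  letI := BraidedCategory.exactPairing_swap X Xᘁ
  tensorRightAdjunction Xᘁ X

instance (X : C) : PreservesColimitsOfSize.{0, 0} (tensorRight X) :=
  (adjL X).leftAdjoint_preservesColimits

instance (X : C) : PreservesLimitsOfSize.{0, 0} (tensorRight X) :=
  (adjR X).rightAdjoint_preservesLimits

theorem mono_whiskerRight {A B : C} (i : A ⟶ B) [Mono i] (X : C) : Mono (i ▷ X) := by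
  have : (tensorRight X).PreservesMonomorphisms := inferInstance
  exact (inferInstance : Mono ((tensorRight X).map i))

theorem epi_whiskerRight {A B : C} (i : A ⟶ B) [Epi i] (X : C) : Epi (i ▷ X) := by
  have : (tensorRight X).PreservesEpimorphisms := inferInstance
  exact (inferInstance : Epi ((tensorRight X).map i))

theorem mono_whiskerLeft {A B : C} (i : A ⟶ B) [Mono i] (X : C) : Mono (X ◁ i) := by
  have h := mono_whiskerRight i X
  have e : X ◁ i = (β_ X A).hom ≫ i ▷ X ≫ (β_ B X).hom := by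
    rw [← BraidedCategory.braiding_naturality_right_assoc]
    simp
  rw [e]
  infer_instance

theorem epi_whiskerLeft {A B : C} (i : A ⟶ B) [Epi i] (X : C) : Epi (X ◁ i) := by
  have h := epi_whiskerRight i X
  have e : X ◁ i = (β_ X A).hom ≫ i ▷ X ≫ (β_ B X).hom := by
    rw [← BraidedCategory.braiding_naturality_right_assoc]
    simp
  rw [e]
  infer_instance

/-- A short exact sequence stays exact. -/
theorem exact_whiskerRight (S : ShortComplex C) (hS : S.ShortExact) (X : C) {W : C}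
    (k : W ⟶ S.X₂ ⊗ X) (hk : k ≫ S.g ▷ X = 0) : ∃ l : W ⟶ S.X₁ ⊗ X, l ≫ S.f ▷ X = k := by
  have := hS.mono_f
  have : Mono ((tensorRight X).map S.f) := mono_whiskerRight S.f X
  have : Mono (S.map (tensorRight X)).f := this
  have h := hS.exact.map (tensorRight X)
  exact ⟨h.lift k hk, h.lift_f k hk⟩

theorem exact_whiskerRight_zero (S : ShortComplex C) (X : C) : S.f ▷ X ≫ S.g ▷ X = 0 := by
  rw [← comp_whiskerRight, S.zero, MonoidalPreadditive.zero_whiskerRight]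

/-- Lifting along an epimorphism after passing to a cover. -/
theorem cover_lift {A B W : C} (p : A ⟶ B) [Epi p] (k : W ⟶ B) :
    ∃ (V : C) (e : V ⟶ W) (l : V ⟶ A), Epi e ∧ l ≫ p = e ≫ k :=
  ⟨pullback p k, pullback.snd p k, pullback.fst p k, inferInstance, pullback.condition⟩

/-- The trace is additive on short exact sequences. -/
theorem tr_exact (S : ShortComplex C) (hS : S.ShortExact) (a : S.X₁ ⟶ S.X₁) (b : S.X₂ ⟶ S.X₂)
    (d : S.X₃ ⟶ S.X₃) (hab : S.f ≫ b = a ≫ S.f) (hbd : b ≫ S.g = S.g ≫ d) :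
    tr b = tr a + tr d := by
  have := hS.mono_f
  have := hS.epi_g
  -- the names of the endomorphisms
  obtain ⟨ca, hca⟩ : ∃ c : 𝟙_ C ⟶ S.X₁ ⊗ S.X₁ᘁ, c = η_ S.X₁ S.X₁ᘁ ≫ a ▷ S.X₁ᘁ := ⟨_, rfl⟩
  obtain ⟨cb, hcb⟩ : ∃ c : 𝟙_ C ⟶ S.X₂ ⊗ S.X₂ᘁ, c = η_ S.X₂ S.X₂ᘁ ≫ b ▷ S.X₂ᘁ := ⟨_, rfl⟩
  obtain ⟨cd, hcd⟩ : ∃ c : 𝟙_ C ⟶ S.X₃ ⊗ S.X₃ᘁ, c = η_ S.X₃ S.X₃ᘁ ≫ d ▷ S.X₃ᘁ := ⟨_, rfl⟩
  -- compatibilities
  have h1 : cb ≫ S.g ▷ S.X₂ᘁ = cd ≫ S.X₃ ◁ S.gᘁ := by
    rw [hcb, hcd, Category.assoc, ← comp_whiskerRight, hbd, comp_whiskerRight,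
      ← coevaluation_comp_rightAdjointMate_assoc, Category.assoc, whisker_exchange]
  have h2 : cb ≫ S.X₂ ◁ S.fᘁ = ca ≫ S.f ▷ S.X₁ᘁ := by
    rw [hcb, hca, Category.assoc, Category.assoc, ← whisker_exchange,
      coevaluation_comp_rightAdjointMate_assoc, ← comp_whiskerRight, hab, comp_whiskerRight]
  have : Epi (S.g ▷ S.X₃ᘁ) := epi_whiskerRight S.g _
  have : Mono (S.f ▷ S.X₁ᘁ) := mono_whiskerRight S.f _
  obtain ⟨V, e, w2, he, hw2⟩ := cover_lift (S.g ▷ S.X₃ᘁ) cd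
  have hk : (e ≫ cb - w2 ≫ S.X₂ ◁ S.gᘁ) ≫ S.g ▷ S.X₂ᘁ = 0 := by
    rw [Preadditive.sub_comp, Category.assoc, h1, Category.assoc, whisker_exchange,
      reassoc_of% hw2, sub_self]
  obtain ⟨w1, hw1⟩ := exact_whiskerRight S hS _ _ hk
  have hw1' : e ≫ cb = w1 ≫ S.f ▷ S.X₂ᘁ + w2 ≫ S.X₂ ◁ S.gᘁ := by
    rw [hw1, sub_add_cancel]
  have hz : S.gᘁ ≫ S.fᘁ = 0 := by
    rw [← comp_rightAdjointMate, S.zero]
    simp only [rightAdjointMate, MonoidalPreadditive.whiskerLeft_zero,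
      MonoidalPreadditive.zero_whiskerRight, zero_comp, comp_zero]
  have h3 : w1 ≫ S.X₁ ◁ S.fᘁ = e ≫ ca := by
    rw [← cancel_mono (S.f ▷ S.X₁ᘁ), Category.assoc, whisker_exchange, Category.assoc, ← h2,
      reassoc_of% hw1', Preadditive.add_comp, Category.assoc, Category.assoc,
      ← MonoidalCategory.whiskerLeft_comp, hz, MonoidalPreadditive.whiskerLeft_zero, comp_zero,
      add_zero]
  have key : ∀ {X Y : C} (f : X ⟶ Y), (f ▷ Yᘁ) ≫ (β_ Y Yᘁ).hom ≫ ε_ Y Yᘁ =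
      (X ◁ fᘁ) ≫ (β_ X Xᘁ).hom ≫ ε_ X Xᘁ := by
    intro X Y f
    rw [BraidedCategory.braiding_naturality_left_assoc, ← rightAdjointMate_comp_evaluation,
      BraidedCategory.braiding_naturality_right_assoc]
  rw [← cancel_epi e]
  have e1 : tr b = cb ≫ (β_ S.X₂ S.X₂ᘁ).hom ≫ ε_ S.X₂ S.X₂ᘁ := by simp [tr, hcb]
  have e2 : tr a = ca ≫ (β_ S.X₁ S.X₁ᘁ).hom ≫ ε_ S.X₁ S.X₁ᘁ := by simp [tr, hca]
  have e3 : tr d = cd ≫ (β_ S.X₃ S.X₃ᘁ).hom ≫ ε_ S.X₃ S.X₃ᘁ := by simp [tr, hcd]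
  rw [e1, e2, e3, reassoc_of% hw1', Preadditive.add_comp, Category.assoc, Category.assoc,
    Preadditive.comp_add, key S.f, reassoc_of% h3, ← key S.g, reassoc_of% hw2]

end abelian

end Pool.Agent.V7H2.AB
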