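import Pool.Agent.V7H2.AB.Trace

/-!
The unit object of a rigid abelian tensor category with `End(1) = ℚ` is simple.
-/

set_option autoImplicit false

open CategoryTheory CategoryTheory.Limits MonoidalCategory

namespace Pool.Agent.V7H2.AB

universe v u

section braided

variable {C : Type u} [Category.{v} C] [MonoidalCategory C] [BraidedCategory C]
  [RightRigidCategory C]

theorem unit_loop (D : C) [ExactPairing (𝟙_ C) D] :
    η_ (𝟙_ C) D ≫ (β_ (𝟙_ C) D).hom ≫ ε_ (𝟙_ C) D = 𝟙 (𝟙_ C) := by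
  have h := ExactPairing.evaluation_coevaluation (𝟙_ C) D
  have e1 : (ρ_ (𝟙_ C ⊗ D)).inv ≫ (α_ (𝟙_ C) D (𝟙_ C)).hom ≫
      (λ_ (D ⊗ 𝟙_ C)).hom = (λ_ D).hom ≫ (ρ_ D).inv := by monoidal
  have e2 : η_ (𝟙_ C) D ▷ 𝟙_ C = (ρ_ (𝟙_ C)).hom ≫ η_ (𝟙_ C) D ≫ (ρ_ (𝟙_ C ⊗ D)).inv := by simp
  have e3 : 𝟙_ C ◁ ε_ (𝟙_ C) D = (λ_ (D ⊗ 𝟙_ C)).hom ≫ ε_ (𝟙_ C) D ≫ (λ_ (𝟙_ C)).inv := by simp
  have e4 : (λ_ (𝟙_ C)).hom ≫ (ρ_ (𝟙_ C)).inv = 𝟙 _ := by monoidal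
  rw [e2, e3, e4] at h
  have h3 := congrArg (fun t => (ρ_ (𝟙_ C)).inv ≫ t ≫ (λ_ (𝟙_ C)).hom) h
  have e5 : (ρ_ (𝟙_ C)).inv ≫ 𝟙 _ ≫ (λ_ (𝟙_ C)).hom = 𝟙 _ := by monoidal
  have h4 : η_ (𝟙_ C) D ≫ ((ρ_ (𝟙_ C ⊗ D)).inv ≫ (α_ (𝟙_ C) D (𝟙_ C)).hom ≫
      (λ_ (D ⊗ 𝟙_ C)).hom) ≫ ε_ (𝟙_ C) D = 𝟙 (𝟙_ C) := by
    rw [← e5, ← h3]
    simp
  rw [e1] at h4
  rw [braiding_tensorUnit_left]
  simpa using h4

theorem tr_unit : tr (𝟙 (𝟙_ C)) = 𝟙 (𝟙_ C) := by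
  unfold tr
  rw [MonoidalCategory.id_whiskerRight, Category.id_comp]
  exact unit_loop _

end braided

section abelian

variable {C : Type u} [Category.{v} C] [Abelian C] [MonoidalCategory C] [SymmetricCategory C]
  [RightRigidCategory C] [MonoidalPreadditive C]

theorem isZero_tensor {U V : C} (u : U ⟶ 𝟙_ C) (v : 𝟙_ C ⟶ V) [Mono u] [Epi v] (h : u ≫ v = 0) :
    IsZero (U ⊗ V) := by
  have := epi_whiskerLeft v U
  have := mono_whiskerRight u V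
  have e : U ◁ v ≫ u ▷ V = 0 := by
    rw [whisker_exchange]
    have e2 : u ▷ 𝟙_ C = (ρ_ U).hom ≫ u ≫ (ρ_ (𝟙_ C)).inv := by simp
    have e3 : 𝟙_ C ◁ v = (λ_ (𝟙_ C)).hom ≫ v ≫ (λ_ V).inv := by simp
    rw [e2, e3, ← unitors_inv_equal]
    simp only [Category.assoc, Iso.inv_hom_id_assoc]
    rw [reassoc_of% h]
    simp
  have h0 : u ▷ V = 0 := by
    rw [← cancel_epi (U ◁ v), e, comp_zero]
  exact IsZero.of_mono_eq_zero _ h0

theorem isZero_whiskerLeft (X : C) {Y : C} (h : IsZero Y) : IsZero (X ⊗ Y) := by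
  rw [IsZero.iff_id_eq_zero] at h ⊢
  rw [← MonoidalCategory.whiskerLeft_id, h, MonoidalPreadditive.whiskerLeft_zero]

theorem isZero_swap {X Y : C} (h : IsZero (X ⊗ Y)) : IsZero (Y ⊗ X) :=
  h.of_iso (β_ Y X)

variable [Linear ℚ C] [MonoidalLinear ℚ C]

theorem isZero_of_tr {X Y : C} (c : ℚ) (hc : c ≠ 0) (ht : tr (𝟙 X) = c • 𝟙 (𝟙_ C))
    (h : IsZero (X ⊗ Y)) : IsZero Y := by
  have h1 : IsZero ((X ⊗ Xᘁ) ⊗ Y) := by
    have h2 : IsZero (Xᘁ ⊗ (X ⊗ Y)) := isZero_whiskerLeft _ h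
    exact h2.of_iso ((whiskerRightIso (β_ X Xᘁ) Y) ≪≫ α_ Xᘁ X Y)
  rw [IsZero.iff_id_eq_zero]
  have h3 : (tr (𝟙 X)) ▷ Y = 0 := by
    have : tr (𝟙 X) = η_ X Xᘁ ≫ ((β_ X Xᘁ).hom ≫ ε_ X Xᘁ) := by simp [tr]
    rw [this, comp_whiskerRight, h1.eq_zero_of_tgt (η_ X Xᘁ ▷ Y), zero_comp]
  rw [ht, MonoidalLinear.smul_whiskerRight, MonoidalCategory.id_whiskerRight] at h3
  have h4 : 𝟙 (𝟙_ C ⊗ Y) = 0 := by
    have := congrArg (fun t => c⁻¹ • t) h3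
    simpa [smul_smul, inv_mul_cancel₀ hc] using this
  have h5 := congrArg (fun t => (λ_ Y).inv ≫ t ≫ (λ_ Y).hom) h4
  simpa using h5

theorem shortExact_cokernel {A B : C} (i : A ⟶ B) [Mono i] :
    (ShortComplex.mk i (cokernel.π i) (cokernel.condition i)).ShortExact where
  exact := ShortComplex.exact_cokernel i
  mono_f := inferInstanceAs (Mono i)
  epi_g := inferInstanceAs (Epi (cokernel.π i))

theorem shortExact_kernel {A B : C} (p : A ⟶ B) [Epi p] :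
    (ShortComplex.mk (kernel.ι p) p (kernel.condition p)).ShortExact where
  exact := ShortComplex.exact_kernel p
  mono_f := inferInstanceAs (Mono (kernel.ι p))
  epi_g := inferInstanceAs (Epi p)

theorem isZero_of_coev {X : C} (h : η_ X Xᘁ = 0) : IsZero X := by
  rw [IsZero.iff_id_eq_zero]
  have h1 := ExactPairing.evaluation_coevaluation X Xᘁ
  rw [h, MonoidalPreadditive.zero_whiskerRight, zero_comp] at h1
  have h2 := congrArg (fun t => (λ_ X).inv ≫ t ≫ (ρ_ X).hom) h1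
  simpa using h2.symm

variable (hU : UnitQ C)

include hU

theorem unit_simple {U V : C} (u : U ⟶ 𝟙_ C) (v : 𝟙_ C ⟶ V) (w : u ≫ v = 0)
    (hS : (ShortComplex.mk u v w).ShortExact) : IsZero U ∨ IsZero V := by
  have hf : Mono u := hS.mono_f
  have hg : Epi v := hS.epi_g
  have hz := isZero_tensor u v w
  have ht := tr_exact _ hS (𝟙 _) (𝟙 _) (𝟙 _) (by simp) (by simp)
  dsimp only at ht
  rw [tr_unit] at ht
  obtain ⟨a, ha⟩ := hU.1 (tr (𝟙 U))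
  obtain ⟨b, hb⟩ := hU.1 (tr (𝟙 V))
  by_cases h0 : a = 0
  · by_cases h1 : b = 0
    · exfalso
      apply hU.2
      rw [ht, ha, hb, h0, h1]
      simp
    · left
      exact isZero_of_tr b h1 hb (isZero_swap hz)
  · right
    exact isZero_of_tr a h0 ha hz

/-- A nonzero morphism from the unit is a monomorphism. -/
theorem mono_of_ne_zero {M : C} (f : 𝟙_ C ⟶ M) (hf : f ≠ 0) : Mono f := by
  rcases unit_simple hU (kernel.ι f) (cokernel.π (kernel.ι f)) (cokernel.condition _)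
    (shortExact_cokernel (kernel.ι f)) with h | h
  · exact Preadditive.mono_of_kernel_zero (h.eq_zero_of_src _)
  · exfalso
    apply hf
    have e : cokernel.π (kernel.ι f) ≫ cokernel.desc (kernel.ι f) f (kernel.condition f) = f :=
      cokernel.π_desc _ _ _
    rw [← e, h.eq_zero_of_tgt (cokernel.π (kernel.ι f)), zero_comp]

theorem tpow_mono {M : C} (f : 𝟙_ C ⟶ M) (hf : f ≠ 0) (n : ℕ) : Mono (tpow f n).2 := by
  induction n with
  | zero => exact inferInstanceAs (Mono (𝟙 (𝟙_ C)))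
  | succ n ih =>
    have h1 := mono_of_ne_zero hU f hf
    have h2 : Mono (f ⊗ₘ (tpow f n).2) := by
      rw [MonoidalCategory.tensorHom_def]
      have := mono_whiskerRight f (𝟙_ C)
      have := mono_whiskerLeft (tpow f n).2 M
      exact mono_comp _ _
    have h3 : Mono ((λ_ (𝟙_ C)).inv ≫ (f ⊗ₘ (tpow f n).2)) := mono_comp _ _
    exact h3

theorem tpow_ne_zero {M : C} (f : 𝟙_ C ⟶ M) (hf : f ≠ 0) (n : ℕ) : (tpow f n).2 ≠ 0 := by
  intro h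
  have h1 := tpow_mono hU f hf n
  apply hU.2
  rw [← cancel_mono (tpow f n).2, h, comp_zero, comp_zero]

end abelian

end Pool.Agent.V7H2.AB
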